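import Pool.Agent.H424.BX.Count

/-! From sets of almost full logarithmic size to the number of integers. -/

set_option autoImplicit false

open MeasureTheory Set Filter Topology

namespace Pool.Agent.H424.BX

/-- the exponential wins -/
theorem exp_wins {c c' : ℝ} (hcc : c < c') (hc0 : 0 ≤ c) (B C : ℝ) :
    ∀ᶠ u : ℝ in atTop, C * Real.exp (c * u) + B * (1 + u) < Real.exp (c' * u) := by
  have hk : 0 < c' - c := by linarith
  have e1 : Tendsto (fun u : ℝ => Real.exp (-((c' - c) * u))) atTop (𝓝 0) := by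
    refine Real.tendsto_exp_neg_atTop_nhds_zero.comp ?_
    exact Tendsto.const_mul_atTop hk tendsto_id
  have e2 : Tendsto (fun u : ℝ => u * Real.exp (-((c' - c) * u))) atTop (𝓝 0) := by
    have e3 := (Real.tendsto_pow_mul_exp_neg_atTop_nhds_zero 1).comp
      (Tendsto.const_mul_atTop hk tendsto_id : Tendsto (fun u : ℝ => (c' - c) * u) atTop atTop)
    have e4 := e3.const_mul (c' - c)⁻¹
    rw [mul_zero] at e4
    refine e4.congr fun u => ?_
    simp only [Function.comp_apply, pow_one]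
    field_simp
  have e5 := (e1.const_mul |C|).add ((e1.add e2).const_mul |B|)
  rw [add_zero, mul_zero, mul_zero, add_zero] at e5
  filter_upwards [e5.eventually (gt_mem_nhds (show (0 : ℝ) < 1 by norm_num)), eventually_ge_atTop (0 : ℝ)]
    with u h1 h2
  have h3 : Real.exp (-((c' - c) * u)) * Real.exp (c' * u) = Real.exp (c * u) := by
    rw [← Real.exp_add]
    congr 1
    ring
  have h4 : 1 ≤ Real.exp (c * u) := Real.one_le_exp (by positivity)
  have h5 : C * Real.exp (c * u) + B * (1 + u) ≤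
      (|C| * Real.exp (-((c' - c) * u)) + |B| * (Real.exp (-((c' - c) * u)) + u * Real.exp (-((c' - c) * u)))) *
        Real.exp (c' * u) := by
    have e6 : (|C| * Real.exp (-((c' - c) * u)) +
        |B| * (Real.exp (-((c' - c) * u)) + u * Real.exp (-((c' - c) * u)))) * Real.exp (c' * u) =
        |C| * (Real.exp (-((c' - c) * u)) * Real.exp (c' * u)) +
          |B| * (1 + u) * (Real.exp (-((c' - c) * u)) * Real.exp (c' * u)) := by ring
    rw [e6, h3]
    have e7 : C * Real.exp (c * u) ≤ |C| * Real.exp (c * u) := by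
      gcongr
      exact le_abs_self C
    have e8 : B * (1 + u) ≤ |B| * (1 + u) * Real.exp (c * u) := by
      calc B * (1 + u) ≤ |B| * (1 + u) := by
            gcongr
            exact le_abs_self B
        _ = |B| * (1 + u) * 1 := (mul_one _).symm
        _ ≤ _ := by gcongr
    linarith
  calc _ ≤ _ := h5
    _ < 1 * Real.exp (c' * u) := mul_lt_mul_of_pos_right h1 (Real.exp_pos _)
    _ = _ := one_mul _

/-- the conversion -/
theorem count_of_many {A : ℝ → ℝ} {g : ℕ → ℝ} {B c c' : ℝ} (hcc : c < c') (hc0 : 0 ≤ c)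
    (hAg : ∀ u : ℝ, 0 ≤ u → A u ≤ g ⌊Real.exp u⌋₊ + B * (1 + u))
    (h : ∀ lam δ : ℝ, 0 < lam → lam ≤ 1 → 0 < δ → ∀ᶠ Y : ℝ in atTop, ENNReal.ofReal (Real.exp (-(δ * Y))) ≤
      volume {u : ℝ | |u - Y| ≤ lam * Y ∧ Real.exp (c' * u) ≤ A u})
    {δ : ℝ} (hδ : 0 < δ) (C : ℝ) :
    ∀ᶠ N : ℕ in atTop, (N : ℝ) ^ (1 - δ) ≤ cnt {n : ℕ | C * (n : ℝ) ^ c < g n} N := by
  set δ1 : ℝ := min δ 1 with hδ1
  have hd0 : 0 < δ1 := lt_min hδ one_pos
  have hd1 : δ1 ≤ 1 := min_le_right _ _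
  have hdd : δ1 ≤ δ := min_le_left _ _
  set l : ℝ := δ1 / 8 with hl
  have hl0 : 0 < l := by rw [hl]; positivity
  have hl1 : l ≤ 1 / 8 := by rw [hl]; linarith
  have h1 := h l l hl0 (by linarith) hl0
  have h2 := exp_wins hcc hc0 B |C|
  obtain ⟨u2, hu2⟩ := eventually_atTop.1 h2
  -- the scale
  have hY : Tendsto (fun N : ℕ => Real.log N / (1 + l)) atTop atTop :=
    (Real.tendsto_log_atTop.comp tendsto_natCast_atTop_atTop).atTop_div_const (by linarith)
  have h3 := hY.eventually h1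
  have h4 : Tendsto (fun N : ℕ => (1 - l) * (Real.log N / (1 + l))) atTop atTop :=
    hY.const_mul_atTop (by linarith)
  have h5 : ∀ᶠ N : ℕ in atTop, (2 : ℝ) ≤ (N : ℝ) ^ (5 * l) :=
    ((tendsto_rpow_atTop (show 0 < 5 * l by positivity)).comp tendsto_natCast_atTop_atTop).eventually
      (eventually_ge_atTop 2)
  filter_upwards [h3, h4.eventually (eventually_ge_atTop (max u2 1)), h5, eventually_ge_atTop 1]
    with N k1 k2 k3 k4
  set Y : ℝ := Real.log N / (1 + l) with hYd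
  set S : Set ℕ := {n : ℕ | C * (n : ℝ) ^ c < g n} with hS
  have hNr : (1 : ℝ) ≤ N := by exact_mod_cast k4
  have hYl : (1 + l) * Y = Real.log N := by
    rw [hYd]
    field_simp
  have hu0 : 1 ≤ (1 - l) * Y := (le_max_right _ _).trans k2
  have hu2' : u2 ≤ (1 - l) * Y := (le_max_left _ _).trans k2
  set n0 : ℕ := ⌊Real.exp ((1 - l) * Y)⌋₊ with hn0
  have hE1 : 2 ≤ Real.exp ((1 - l) * Y) := by
    have := Real.add_one_le_exp ((1 - l) * Y)
    linarith
  have hn0' : (n0 : ℝ) ≤ Real.exp ((1 - l) * Y) := Nat.floor_le (Real.exp_pos _).le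
  have hn0'' : Real.exp ((1 - l) * Y) < n0 + 1 := Nat.lt_floor_add_one _
  have hn1 : 1 ≤ n0 := Nat.le_floor (by push_cast; linarith)
  have hn1r : (1 : ℝ) ≤ n0 := by exact_mod_cast hn1
  have hsub : {u : ℝ | |u - Y| ≤ l * Y ∧ Real.exp (c' * u) ≤ A u} ⊆
      {u : ℝ | (1 - l) * Y ≤ u ∧ u ≤ Real.log N ∧ ⌊Real.exp u⌋₊ ∈ S} := by
    rintro u ⟨a1, a2⟩
    rw [abs_le] at a1
    have a3 : (1 - l) * Y ≤ u := by linarith [a1.1]
    refine ⟨a3, by rw [← hYl]; linarith [a1.2], ?_⟩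
    have a4 := hu2 u (hu2'.trans a3)
    have a5 := hAg u (by linarith)
    have a6 : (⌊Real.exp u⌋₊ : ℝ) ≤ Real.exp u := Nat.floor_le (Real.exp_pos u).le
    have a7 : (⌊Real.exp u⌋₊ : ℝ) ^ c ≤ Real.exp (c * u) := by
      rw [show Real.exp (c * u) = Real.exp u ^ c by rw [← Real.exp_mul, mul_comm]]
      exact Real.rpow_le_rpow (Nat.cast_nonneg _) a6 hc0
    have a8 : C * (⌊Real.exp u⌋₊ : ℝ) ^ c ≤ |C| * Real.exp (c * u) :=
      mul_le_mul (le_abs_self C) a7 (by positivity) (abs_nonneg C)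
    show C * (⌊Real.exp u⌋₊ : ℝ) ^ c < g ⌊Real.exp u⌋₊
    linarith
  have h6 := vol_le S hn1 hn0' (u1 := Real.log N) (N := N) (by
    rw [Real.exp_log (by linarith)]
    linarith)
  have h7 := k1.trans ((measure_mono hsub).trans h6)
  rw [ENNReal.ofReal_le_ofReal_iff (by positivity), le_div_iff₀ (by linarith)] at h7
  refine le_trans ?_ h7
  have h8 : Real.exp ((1 - l) * Y) / 2 ≤ n0 := by linarith
  have h9 : Real.exp (-(l * Y)) * (Real.exp ((1 - l) * Y) / 2) ≤ Real.exp (-(l * Y)) * n0 := by gcongr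
  refine le_trans ?_ h9
  have h10 : Real.exp (-(l * Y)) * (Real.exp ((1 - l) * Y) / 2) = (N : ℝ) ^ ((1 - 2 * l) / (1 + l)) / 2 := by
    rw [← mul_div_assoc, ← Real.exp_add]
    congr 1
    rw [Real.rpow_def_of_pos (by linarith)]
    congr 1
    rw [hYd]
    field_simp
    ring
  rw [h10]
  have h11 : 1 - 3 * l ≤ (1 - 2 * l) / (1 + l) := by
    rw [le_div_iff₀ (by linarith)]
    nlinarith
  have h12 : (N : ℝ) ^ (1 - δ) ≤ (N : ℝ) ^ (1 - 8 * l) :=
    Real.rpow_le_rpow_of_exponent_le hNr (by rw [hl]; linarith)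
  have h13 : (N : ℝ) ^ (1 - 3 * l) ≤ (N : ℝ) ^ ((1 - 2 * l) / (1 + l)) :=
    Real.rpow_le_rpow_of_exponent_le hNr h11
  have h14 : (N : ℝ) ^ (1 - 3 * l) = (N : ℝ) ^ (1 - 8 * l) * (N : ℝ) ^ (5 * l) := by
    rw [← Real.rpow_add (by linarith)]
    congr 1
    ring
  have h15 : (N : ℝ) ^ (1 - 8 * l) * 2 ≤ (N : ℝ) ^ (1 - 8 * l) * (N : ℝ) ^ (5 * l) := by gcongr
  linarith

end Pool.Agent.H424.BX
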