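import Mathlib

/-! From sets of real numbers to sets of integers, in the logarithmic scale. -/

set_option autoImplicit false

open MeasureTheory Set Filter Topology

namespace Pool.Agent.H424.BX

/-- the number of the elements `n ≥ 1`, `n ≤ N` of `S` -/
noncomputable def cnt (S : Set ℕ) (N : ℕ) : ℕ := {n : ℕ | 1 ≤ n ∧ n ≤ N ∧ n ∈ S}.ncard

theorem cnt_fin (S : Set ℕ) (N : ℕ) : {n : ℕ | 1 ≤ n ∧ n ≤ N ∧ n ∈ S}.Finite :=
  (Set.finite_Icc 1 N).subset fun _ hn => ⟨hn.1, hn.2.1⟩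

theorem cnt_mono {S T : Set ℕ} {N : ℕ} (h : ∀ n : ℕ, 1 ≤ n → n ≤ N → n ∈ S → n ∈ T) : cnt S N ≤ cnt T N :=
  Set.ncard_le_ncard (fun n hn => ⟨hn.1, hn.2.1, h n hn.1 hn.2.1 hn.2.2⟩) (cnt_fin T N)

theorem cnt_le (S : Set ℕ) (N : ℕ) : cnt S N ≤ N := by
  have h1 : cnt S N ≤ (Set.Icc 1 N).ncard :=
    Set.ncard_le_ncard (fun n hn => ⟨hn.1, hn.2.1⟩) (Set.finite_Icc 1 N)
  refine h1.trans (le_of_eq ?_)
  rw [Set.ncard_eq_toFinset_card']
  simp

theorem cnt_union (S T : Set ℕ) (N : ℕ) : cnt (S ∪ T) N ≤ cnt S N + cnt T N := by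
  unfold cnt
  refine le_trans (Set.ncard_le_ncard ?_ ((cnt_fin S N).union (cnt_fin T N))) (Set.ncard_union_le _ _)
  rintro n ⟨h1, h2, h3 | h3⟩
  · exact Or.inl ⟨h1, h2, h3⟩
  · exact Or.inr ⟨h1, h2, h3⟩

theorem log_step {n : ℕ} (hn : 1 ≤ n) : Real.log ((n : ℝ) + 1) - Real.log n ≤ 1 / n := by
  have hnr : (0 : ℝ) < n := by exact_mod_cast hn
  rw [← Real.log_div (by positivity) (by positivity)]
  have := Real.log_le_sub_one_of_pos (x := ((n : ℝ) + 1) / n) (by positivity)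
  calc _ ≤ _ := this
    _ = 1 / n := by field_simp; ring

theorem log_step' {n : ℕ} (hn : 1 ≤ n) : 1 / (2 * (n : ℝ)) ≤ Real.log ((n : ℝ) + 1) - Real.log n := by
  have hnr : (1 : ℝ) ≤ n := by exact_mod_cast hn
  have h1 := Real.one_sub_inv_le_log_of_pos (x := ((n : ℝ) + 1) / n) (by positivity)
  rw [Real.log_div (by positivity) (by positivity)] at h1
  refine le_trans ?_ h1
  rw [inv_div]
  have h2 : 1 - (n : ℝ) / (n + 1) = 1 / (n + 1) := by
    field_simp
    ring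
  rw [h2]
  exact one_div_le_one_div_of_le (by positivity) (by linarith)

/-- the measure of a set in the logarithmic scale and the number of integers -/
theorem vol_le (S : Set ℕ) {n0 N : ℕ} (hn0 : 1 ≤ n0) {u0 u1 : ℝ} (h0 : (n0 : ℝ) ≤ Real.exp u0)
    (h1 : Real.exp u1 < N + 1) :
    volume {u : ℝ | u0 ≤ u ∧ u ≤ u1 ∧ ⌊Real.exp u⌋₊ ∈ S} ≤ ENNReal.ofReal ((cnt S N : ℝ) / n0) := by
  classical
  set T : Finset ℕ := (Finset.Icc n0 N).filter (· ∈ S) with hT
  have hsub : {u : ℝ | u0 ≤ u ∧ u ≤ u1 ∧ ⌊Real.exp u⌋₊ ∈ S} ⊆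
      ⋃ n ∈ T, Icc (Real.log n) (Real.log ((n : ℝ) + 1)) := by
    rintro u ⟨k1, k2, k3⟩
    set n : ℕ := ⌊Real.exp u⌋₊ with hn
    have e1 : n0 ≤ n := Nat.le_floor (h0.trans (Real.exp_le_exp.2 k1))
    have e2 : (n : ℝ) ≤ Real.exp u := Nat.floor_le (Real.exp_pos u).le
    have e3 : n ≤ N := by
      have e4 : (n : ℝ) < N + 1 := lt_of_le_of_lt (e2.trans (Real.exp_le_exp.2 k2)) h1
      have e5 : (n : ℝ) < ((N + 1 : ℕ) : ℝ) := by push_cast; exact e4
      have e6 : n < N + 1 := by exact_mod_cast e5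
      omega
    have e7 : Real.exp u < n + 1 := Nat.lt_floor_add_one _
    have hnp : (0 : ℝ) < n := by exact_mod_cast (by omega : 0 < n)
    refine mem_iUnion₂.2 ⟨n, Finset.mem_filter.2 ⟨Finset.mem_Icc.2 ⟨e1, e3⟩, k3⟩, ?_, ?_⟩
    · rwa [Real.log_le_iff_le_exp hnp]
    · rw [Real.le_log_iff_exp_le (by positivity)]
      exact e7.le
  have hn0r : (0 : ℝ) < n0 := by exact_mod_cast hn0
  calc volume {u : ℝ | u0 ≤ u ∧ u ≤ u1 ∧ ⌊Real.exp u⌋₊ ∈ S}
      ≤ volume (⋃ n ∈ T, Icc (Real.log n) (Real.log ((n : ℝ) + 1))) := measure_mono hsub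
    _ ≤ ∑ n ∈ T, volume (Icc (Real.log n) (Real.log ((n : ℝ) + 1))) := measure_biUnion_finset_le _ _
    _ ≤ ∑ n ∈ T, ENNReal.ofReal (1 / n0) := by
        refine Finset.sum_le_sum fun n hn => ?_
        have hn1 : n0 ≤ n := (Finset.mem_Icc.1 (Finset.mem_filter.1 hn).1).1
        rw [Real.volume_Icc]
        refine ENNReal.ofReal_le_ofReal ((log_step (hn0.trans hn1)).trans ?_)
        exact one_div_le_one_div_of_le hn0r (by exact_mod_cast hn1)
    _ = ENNReal.ofReal ((T.card : ℝ) / n0) := by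
        rw [Finset.sum_const, nsmul_eq_mul, ← ENNReal.ofReal_natCast, ← ENNReal.ofReal_mul (by positivity)]
        congr 1
        ring
    _ ≤ ENNReal.ofReal ((cnt S N : ℝ) / n0) := by
        refine ENNReal.ofReal_le_ofReal ?_
        have h3 : T.card ≤ cnt S N := by
          unfold cnt
          rw [← Set.ncard_coe_finset]
          refine Set.ncard_le_ncard (fun n hn => ?_) (cnt_fin S N)
          have h4 := Finset.mem_filter.1 (Finset.mem_coe.1 hn)
          have h5 := Finset.mem_Icc.1 h4.1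
          exact ⟨hn0.trans h5.1, h5.2, h4.2⟩
        gcongr

/-- a mean square bound and the number of large values -/
theorem count_upper {f : ℕ → ℝ} {κ x : ℝ} (hx : 0 ≤ x) (hκ : κ ≤ x + 1 / 2)
    (hg : Integrable fun u : ℝ => f ⌊Real.exp u⌋₊ ^ 2 * Real.exp (-(2 * x * u))) :
    ∃ C : ℝ, 0 ≤ C ∧ ∀ N : ℕ, 1 ≤ N →
      (cnt {n : ℕ | (n : ℝ) ^ κ < |f n|} N : ℝ) ≤ C * (N : ℝ) ^ (1 - 2 * (κ - x)) := by
  classical
  set g : ℝ → ℝ := fun u => f ⌊Real.exp u⌋₊ ^ 2 * Real.exp (-(2 * x * u)) with hgd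
  have hg0 : ∀ u, 0 ≤ g u := fun u => by rw [hgd]; positivity
  set S : Set ℕ := {n : ℕ | (n : ℝ) ^ κ < |f n|} with hS
  refine ⟨2 * 2 ^ (2 * x) * ∫ u, g u, mul_nonneg (by positivity) (integral_nonneg hg0), fun N hN => ?_⟩
  have hNr : (1 : ℝ) ≤ N := by exact_mod_cast hN
  set m : ℝ := (2 * 2 ^ (2 * x))⁻¹ * (N : ℝ) ^ (-(1 - 2 * (κ - x))) with hm
  have hm0 : 0 < m := by rw [hm]; positivity
  -- the contribution of one integer
  have hone : ∀ n : ℕ, 1 ≤ n → n ≤ N → n ∈ S → m ≤ ∫ u in (Real.log n)..(Real.log ((n : ℝ) + 1)), g u := by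
    intro n hn hnN hnS
    have hnr : (1 : ℝ) ≤ n := by exact_mod_cast hn
    have hle : Real.log n ≤ Real.log ((n : ℝ) + 1) := Real.log_le_log (by linarith) (by linarith)
    have h1 : ∀ u ∈ Ioo (Real.log n) (Real.log ((n : ℝ) + 1)),
        (n : ℝ) ^ (2 * κ) * (2 * (n : ℝ)) ^ (-(2 * x)) ≤ g u := by
      intro u hu
      have e1 : (n : ℝ) ≤ Real.exp u := by
        rw [← Real.log_le_iff_le_exp (by linarith)]
        exact hu.1.le
      have e2 : Real.exp u < (n : ℝ) + 1 := by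
        rw [← Real.lt_log_iff_exp_lt (by linarith)]
        exact hu.2
      have e3 : ⌊Real.exp u⌋₊ = n := by
        rw [Nat.floor_eq_iff (Real.exp_pos u).le]
        exact ⟨e1, e2⟩
      rw [hgd]
      simp only
      rw [e3, ← sq_abs (f n)]
      have e4 : (n : ℝ) ^ (2 * κ) ≤ |f n| ^ 2 := by
        have e5 : ((n : ℝ) ^ κ) ^ 2 ≤ |f n| ^ 2 := pow_le_pow_left₀ (by positivity) (le_of_lt hnS) 2
        rw [← Real.rpow_natCast ((n : ℝ) ^ κ) 2, ← Real.rpow_mul (by linarith)] at e5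
        rw [mul_comm 2 κ]
        exact_mod_cast e5
      have e6 : (2 * (n : ℝ)) ^ (-(2 * x)) ≤ Real.exp (-(2 * x * u)) := by
        rw [show Real.exp (-(2 * x * u)) = (Real.exp u) ^ (-(2 * x)) by
          rw [← Real.exp_mul]; congr 1; ring]
        exact Real.rpow_le_rpow_of_nonpos (Real.exp_pos u) (by linarith) (by linarith)
      exact mul_le_mul e4 e6 (by positivity) (by positivity)
    have h2 : (Real.log ((n : ℝ) + 1) - Real.log n) * ((n : ℝ) ^ (2 * κ) * (2 * (n : ℝ)) ^ (-(2 * x))) ≤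
        ∫ u in (Real.log n)..(Real.log ((n : ℝ) + 1)), g u := by
      have h3 : ∫ _u in (Real.log n)..(Real.log ((n : ℝ) + 1)),
          ((n : ℝ) ^ (2 * κ) * (2 * (n : ℝ)) ^ (-(2 * x))) ≤
          ∫ u in (Real.log n)..(Real.log ((n : ℝ) + 1)), g u := by
        refine intervalIntegral.integral_mono_on_of_le_Ioo hle (by simp) hg.intervalIntegrable h1
      rwa [intervalIntegral.integral_const, smul_eq_mul] at h3
    refine le_trans ?_ h2
    have h4 := log_step' hn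
    have h5 : (1 / (2 * (n : ℝ))) * ((n : ℝ) ^ (2 * κ) * (2 * (n : ℝ)) ^ (-(2 * x))) ≤
        (Real.log ((n : ℝ) + 1) - Real.log n) * ((n : ℝ) ^ (2 * κ) * (2 * (n : ℝ)) ^ (-(2 * x))) :=
      mul_le_mul_of_nonneg_right h4 (by positivity)
    refine le_trans ?_ h5
    rw [Real.mul_rpow (by norm_num) (by linarith)]
    have h6 : (1 / (2 * (n : ℝ))) * ((n : ℝ) ^ (2 * κ) * (2 ^ (-(2 * x)) * (n : ℝ) ^ (-(2 * x)))) =
        (2 * 2 ^ (2 * x))⁻¹ * (n : ℝ) ^ (-(1 - 2 * (κ - x))) := by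
      have e1 : (n : ℝ) ^ (-(1 - 2 * (κ - x))) = (n : ℝ) ^ (2 * κ) * (n : ℝ) ^ (-(2 * x)) * (n : ℝ)⁻¹ := by
        rw [← Real.rpow_neg_one, ← Real.rpow_add (by linarith), ← Real.rpow_add (by linarith)]
        congr 1
        ring
      rw [e1, Real.rpow_neg (by norm_num) (2 * x), mul_inv]
      field_simp
    rw [h6, hm]
    refine mul_le_mul_of_nonneg_left ?_ (by positivity)
    refine Real.rpow_le_rpow_of_nonpos (by linarith) (by exact_mod_cast hnN) (by linarith)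
  -- the sum
  have hind : ∀ n : ℕ, n ≤ N → (cnt S n : ℝ) * m ≤ ∫ u in (0 : ℝ)..(Real.log ((n : ℝ) + 1)), g u := by
    intro n
    induction n with
    | zero =>
      intro _
      have h1 : cnt S 0 = 0 := by
        have := cnt_le S 0
        omega
      rw [h1]
      simp
    | succ n ih =>
      intro hn
      have h1 := ih (by omega)
      have h2 : ∫ u in (0 : ℝ)..(Real.log (((n + 1 : ℕ) : ℝ) + 1)), g u =
          (∫ u in (0 : ℝ)..(Real.log ((n : ℝ) + 1)), g u) +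
          ∫ u in (Real.log ((n + 1 : ℕ) : ℝ))..(Real.log (((n + 1 : ℕ) : ℝ) + 1)), g u := by
        have e1 : ((n + 1 : ℕ) : ℝ) = (n : ℝ) + 1 := by push_cast; ring
        rw [e1]
        exact (intervalIntegral.integral_add_adjacent_intervals hg.intervalIntegrable
          hg.intervalIntegrable).symm
      rw [h2]
      by_cases hS1 : n + 1 ∈ S
      · have h3 := hone (n + 1) (by omega) hn hS1
        have h4 : (cnt S (n + 1) : ℝ) ≤ cnt S n + 1 := by
          have h5 : cnt S (n + 1) ≤ cnt S n + 1 := by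
            unfold cnt
            have h6 : {k : ℕ | 1 ≤ k ∧ k ≤ n + 1 ∧ k ∈ S} ⊆ insert (n + 1) {k : ℕ | 1 ≤ k ∧ k ≤ n ∧ k ∈ S} := by
              rintro k ⟨a1, a2, a3⟩
              rcases Nat.lt_or_ge n k with h | h
              · exact Or.inl (by omega)
              · exact Or.inr ⟨a1, h, a3⟩
            exact (Set.ncard_le_ncard h6 ((cnt_fin S n).insert _)).trans (Set.ncard_insert_le _ _)
          exact_mod_cast h5
        have h7 : (cnt S (n + 1) : ℝ) * m ≤ (cnt S n + 1) * m := by gcongr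
        linarith
      · have h4 : cnt S (n + 1) = cnt S n := by
          unfold cnt
          congr 1
          ext k
          constructor
          · rintro ⟨a1, a2, a3⟩
            refine ⟨a1, ?_, a3⟩
            by_contra h
            have : k = n + 1 := by omega
            exact hS1 (this ▸ a3)
          · rintro ⟨a1, a2, a3⟩
            exact ⟨a1, by omega, a3⟩
        rw [h4]
        have h5 : 0 ≤ ∫ u in (Real.log ((n + 1 : ℕ) : ℝ))..(Real.log (((n + 1 : ℕ) : ℝ) + 1)), g u := by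
          refine intervalIntegral.integral_nonneg ?_ fun u _ => hg0 u
          exact Real.log_le_log (by positivity) (by linarith)
        linarith
  have h1 := hind N le_rfl
  have h2 : ∫ u in (0 : ℝ)..(Real.log ((N : ℝ) + 1)), g u ≤ ∫ u, g u := by
    have h3 : (0 : ℝ) ≤ Real.log ((N : ℝ) + 1) := Real.log_nonneg (by linarith)
    rw [intervalIntegral.integral_of_le h3]
    exact setIntegral_le_integral hg (Eventually.of_forall hg0)
  have h3 : (cnt S N : ℝ) * m ≤ ∫ u, g u := h1.trans h2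
  have h4 : (cnt S N : ℝ) = ((cnt S N : ℝ) * m) * (2 * 2 ^ (2 * x)) * (N : ℝ) ^ (1 - 2 * (κ - x)) := by
    rw [hm, Real.rpow_neg (by linarith)]
    have e1 : (N : ℝ) ^ (1 - 2 * (κ - x)) ≠ 0 := by positivity
    have e2 : (2 * (2 : ℝ) ^ (2 * x)) ≠ 0 := by positivity
    field_simp
  rw [h4]
  have h5 : 0 ≤ (2 * (2 : ℝ) ^ (2 * x)) * (N : ℝ) ^ (1 - 2 * (κ - x)) := by positivity
  calc (cnt S N : ℝ) * m * (2 * 2 ^ (2 * x)) * (N : ℝ) ^ (1 - 2 * (κ - x))
      = ((cnt S N : ℝ) * m) * ((2 * 2 ^ (2 * x)) * (N : ℝ) ^ (1 - 2 * (κ - x))) := by ring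
    _ ≤ (∫ u, g u) * ((2 * 2 ^ (2 * x)) * (N : ℝ) ^ (1 - 2 * (κ - x))) :=
        mul_le_mul_of_nonneg_right h3 h5
    _ = _ := by ring

end Pool.Agent.H424.BX
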