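import Pool.Agent.H424.BX.Dens

/-! Criteria with exceptional cut-offs. -/

set_option autoImplicit false

open Complex MeasureTheory Set Filter Topology Classical
open Pool.Agent.TH949.TX
open Pool.Agent.W263.BSD hiding TG

namespace Pool.Agent.H424.BX

variable {a b : ℤ} {F : ℂ → ℂ}

/-- all but `N^(1-δ)` of the numbers `n ≤ N` satisfy `|log P(n)| ≤ n^ε` -/
def Sav (a b : ℤ) : Prop := ∀ ε : ℝ, 0 < ε → ∃ δ : ℝ, 0 < δ ∧ ∀ᶠ N : ℕ in atTop,
  (cnt {n : ℕ | (n : ℝ) ^ ε < |Real.log (bsdProduct a b n)|} N : ℝ) ≤ (N : ℝ) ^ (1 - δ)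

/-- for infinitely many `N`, all but `N^(1-δ)` of the numbers `n ≤ N` satisfy `log P(n) ≤ n^ε` -/
def SavF (a b : ℤ) : Prop := ∀ ε : ℝ, 0 < ε → ∃ δ : ℝ, 0 < δ ∧ ∃ᶠ N : ℕ in atTop,
  (cnt {n : ℕ | (n : ℝ) ^ ε < Real.log (bsdProduct a b n)} N : ℝ) ≤ (N : ℝ) ^ (1 - δ)

/-- the general form of the first condition -/
theorem sav_of (hg : Gr a b F) (hF : IsLSeries a b F) {θ : ℝ} (hθ : 0 ≤ θ)
    (hz : ∀ s : ℂ, 1 + θ < s.re → F s ≠ 0) {ε : ℝ} (hε : 0 < ε) : ∃ δ : ℝ, 0 < δ ∧ ∀ᶠ N : ℕ in atTop,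
    (cnt {n : ℕ | (n : ℝ) ^ (θ + ε) < |Real.log (bsdProduct a b n)|} N : ℝ) ≤ (N : ℝ) ^ (1 - δ) := by
  set e : ℝ := min ε (1 / 2) with he
  have he0 : 0 < e := by rw [he]; positivity
  have he1 : e ≤ 1 / 2 := min_le_right _ _
  have he2 : e ≤ ε := min_le_left _ _
  refine ⟨e, he0, ?_⟩
  have h1 := upper_count hg hF hθ hz (κ := θ + e) (by linarith) (by linarith) he0
  filter_upwards [h1] with N hN
  have h2 : cnt {n : ℕ | (n : ℝ) ^ (θ + ε) < |Real.log (bsdProduct a b n)|} N ≤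
      cnt {n : ℕ | (n : ℝ) ^ (θ + e) < |Real.log (bsdProduct a b n)|} N := by
    refine cnt_mono fun n hn _ h => ?_
    have hn1 : (1 : ℝ) ≤ n := by exact_mod_cast hn
    have h' : (n : ℝ) ^ (θ + ε) < |Real.log (bsdProduct a b n)| := h
    exact lt_of_le_of_lt (Real.rpow_le_rpow_of_exponent_le hn1 (by linarith)) h'
  refine le_trans (by exact_mod_cast h2) (hN.trans (le_of_eq ?_))
  congr 1
  ring

theorem sav_of_nz (hg : Gr a b F) (hF : IsLSeries a b F) (hz : NZ F) : Sav a b := by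
  intro ε hε
  have := sav_of hg hF le_rfl (θ := 0) (fun s hs => hz s (by linarith)) hε
  simpa only [zero_add] using this

theorem savF_of_sav (h : Sav a b) : SavF a b := by
  intro ε hε
  obtain ⟨δ, hδ, h1⟩ := h ε hε
  refine ⟨δ, hδ, (h1.mono fun N hN => le_trans ?_ hN).frequently⟩
  have : cnt {n : ℕ | (n : ℝ) ^ ε < Real.log (bsdProduct a b n)} N ≤
      cnt {n : ℕ | (n : ℝ) ^ ε < |Real.log (bsdProduct a b n)|} N :=
    cnt_mono fun n _ _ h => by
      have h' : (n : ℝ) ^ ε < Real.log (bsdProduct a b n) := h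
      exact lt_of_lt_of_le h' (le_abs_self _)
  exact_mod_cast this

/-- the general form of the criterion -/
theorem no_zero_of (hg : Gr a b F) (hF : IsLSeries a b F) {θ : ℝ} (hθ : 0 ≤ θ)
    (h : ∀ ε : ℝ, 0 < ε → ∃ δ : ℝ, 0 < δ ∧ ∃ᶠ N : ℕ in atTop,
      (cnt {n : ℕ | (n : ℝ) ^ (θ + ε) < Real.log (bsdProduct a b n)} N : ℝ) ≤ (N : ℝ) ^ (1 - δ)) :
    ∀ s : ℂ, 1 + θ < s.re → F s ≠ 0 := by
  intro s hs h0
  obtain ⟨δ, hδ, h1⟩ := h ((s.re - 1 - θ) / 2) (by linarith)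
  have h2 := up_count hg hF (c := θ + (s.re - 1 - θ) / 2) (by linarith) (ρ := s) (by linarith) h0
    (half_pos hδ) 1
  obtain ⟨N, h3, h4, h5⟩ := (h1.and_eventually (h2.and (eventually_ge_atTop 2))).exists
  simp only [one_mul] at h4
  have h6 := h4.trans h3
  have hN : (2 : ℝ) ≤ N := by exact_mod_cast h5
  have h7 : (N : ℝ) ^ (1 - δ) < (N : ℝ) ^ (1 - δ / 2) :=
    Real.rpow_lt_rpow_of_exponent_lt (by linarith) (by linarith)
  linarith

theorem nz_of_savF (hg : Gr a b F) (hF : IsLSeries a b F) (h : SavF a b) : NZ F := by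
  intro s hs
  refine no_zero_of hg hF le_rfl (θ := 0) (fun ε hε => ?_) s (by linarith)
  simpa only [zero_add] using h ε hε

/-- the order -/
theorem crit (H : Hy a b F) (ρ : ℝ) : List.TFAE [
    NZ F ∧ ∃ m : ℕ, ρ = m ∧ analyticOrderAt F 1 = m,
    Sav a b ∧ ∀ ε : ℝ, 0 < ε → Summable fun n : ℕ => if ε * Real.log (Real.log n) <
      |Real.log (bsdProduct a b n) - ρ * Real.log (Real.log n)| then (1 : ℝ) / n else 0,
    SavF a b ∧ ∀ ε : ℝ, 0 < ε → ∃ η : ℝ, 0 < η ∧ ∃ᶠ N : ℕ in atTop, η * Real.log N ≤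
      lsum {n : ℕ | |Real.log (bsdProduct a b n) - ρ * Real.log (Real.log n)| ≤ ε * Real.log (Real.log n)} N] := by
  tfae_have 1 → 2 := by
    rintro ⟨hz, m, rfl, hm⟩
    exact ⟨sav_of_nz H.gr H.lser hz, fun ε hε => rh_ord H hz hm hε⟩
  tfae_have 2 → 3 := by
    rintro ⟨h1, h2⟩
    refine ⟨savF_of_sav h1, fun ε hε => ⟨1 / 2, by norm_num, ?_⟩⟩
    refine (lsum_compl (h2 ε hε) (Eventually.of_forall fun n hn => ?_)).frequently
    exact not_lt.1 hn
  tfae_have 3 → 1 := by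
    rintro ⟨h1, h2⟩
    have hz := nz_of_savF H.gr H.lser h1
    obtain ⟨m, hm⟩ := Pool.Agent.W189.ML.order_finite_all H.lser 1
    refine ⟨hz, m, ?_, hm⟩
    by_contra hne
    have hd : 0 < |(m : ℝ) - ρ| := abs_pos.2 (sub_ne_zero.2 fun h => hne h.symm)
    set ε : ℝ := |(m : ℝ) - ρ| / 4 with hε
    have hε0 : 0 < ε := by positivity
    obtain ⟨η, hη, h3⟩ := h2 ε hε0
    have hll : Tendsto (fun n : ℕ => Real.log (Real.log n)) atTop atTop :=
      (Real.tendsto_log_atTop.comp Real.tendsto_log_atTop).comp tendsto_natCast_atTop_atTop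
    obtain ⟨n₀, hn₀⟩ := eventually_atTop.1 (hll.eventually (eventually_gt_atTop 0))
    obtain ⟨n, hn, h4, h5⟩ := inter_unbounded (rh_ord H hz hm hε0) hη h3 n₀
    have h6 : |Real.log (bsdProduct a b n) - ρ * Real.log (Real.log n)| ≤ ε * Real.log (Real.log n) := h4
    have h7 := not_lt.1 h5
    have h8 := hn₀ n hn
    have h9 : |(m : ℝ) - ρ| * Real.log (Real.log n) ≤ 2 * ε * Real.log (Real.log n) := by
      rw [← abs_of_pos h8, ← abs_mul, abs_of_pos h8]
      have e1 : ((m : ℝ) - ρ) * Real.log (Real.log n) =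
          (Real.log (bsdProduct a b n) - ρ * Real.log (Real.log n)) -
          (Real.log (bsdProduct a b n) - m * Real.log (Real.log n)) := by ring
      rw [e1]
      refine (abs_sub _ _).trans ?_
      linarith
    have h10 := le_of_mul_le_mul_right h9 h8
    rw [hε] at h10
    linarith
  tfae_finish

/-- the end of the proof of the criterion with the constant -/
theorem key_end {m : ℕ} {ρ κ : ℝ}
    (h : ∀ ε : ℝ, 0 < ε → ∀ n₀ : ℕ, ∃ n : ℕ, n₀ ≤ n ∧ |((m : ℝ) - ρ) * Real.log (Real.log n) - κ| ≤ ε) :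
    ρ = m ∧ κ = 0 := by
  have hll : Tendsto (fun n : ℕ => Real.log (Real.log n)) atTop atTop :=
    (Real.tendsto_log_atTop.comp Real.tendsto_log_atTop).comp tendsto_natCast_atTop_atTop
  have hρ : ρ = m := by
    by_contra hne
    have hne' : 0 < |(m : ℝ) - ρ| := abs_pos.2 (sub_ne_zero.2 fun h => hne h.symm)
    obtain ⟨n₀, hn₀⟩ := eventually_atTop.1 (hll.eventually (eventually_ge_atTop ((|κ| + 2) / |(m : ℝ) - ρ|)))
    obtain ⟨n, k1, k3⟩ := h 1 one_pos n₀
    have k4 := hn₀ n k1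
    have k0 : 0 < Real.log (Real.log n) := lt_of_lt_of_le (by positivity) k4
    rw [div_le_iff₀ hne'] at k4
    have k5 := abs_sub_abs_le_abs_sub (((m : ℝ) - ρ) * Real.log (Real.log n)) κ
    rw [abs_mul, abs_of_pos k0, mul_comm] at k5
    linarith
  refine ⟨hρ, ?_⟩
  by_contra hne
  have hpos : 0 < |κ| := abs_pos.2 hne
  obtain ⟨n, -, k3⟩ := h (|κ| / 2) (by positivity) 0
  rw [hρ, sub_self, zero_mul, zero_sub, abs_neg] at k3
  linarith

theorem quot_exp {ρ : ℝ} {n : ℕ} (hn : 3 ≤ n) : bsdProduct a b n / Real.log n ^ ρ =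
    Real.exp (Real.log (bsdProduct a b n) - ρ * Real.log (Real.log n)) := by
  have hnr : (3 : ℝ) ≤ n := by exact_mod_cast hn
  have hl : 0 < Real.log n := Real.log_pos (by linarith)
  rw [Real.exp_sub, Real.exp_log (bsdProduct_pos _), Real.rpow_def_of_pos hl, mul_comm]

/-- the order and the constant -/
theorem crit_const (H : Hy a b F) (ρ : ℝ) {A : ℝ} (hA : 0 < A) : List.TFAE [
    NZ F ∧ ∃ m : ℕ, ρ = m ∧ analyticOrderAt F 1 = m ∧ A = TG F m,
    Sav a b ∧ ∀ ε : ℝ, 0 < ε → Summable fun n : ℕ => if ε < |bsdProduct a b n / Real.log n ^ ρ - A| then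
      (1 : ℝ) / n else 0,
    SavF a b ∧ ∀ ε : ℝ, 0 < ε → ∃ η : ℝ, 0 < η ∧ ∃ᶠ N : ℕ in atTop, η * Real.log N ≤
      lsum {n : ℕ | |bsdProduct a b n / Real.log n ^ ρ - A| ≤ ε} N] := by
  tfae_have 1 → 2 := by
    rintro ⟨hz, m, rfl, hm, rfl⟩
    refine ⟨sav_of_nz H.gr H.lser hz, fun ε hε => ?_⟩
    obtain ⟨ε', h1, h2⟩ := exp_close hA hε
    refine Summable.of_norm_bounded_eventually_nat (rh_asy H hz hm (half_pos h1)) ?_
    filter_upwards [eventually_ge_atTop 3] with n hn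
    split_ifs with h3 h4 h4
    · rw [Real.norm_eq_abs, abs_of_nonneg (by positivity)]
    · exfalso
      rw [quot_exp hn] at h3
      have h5 := h2 (Real.log (bsdProduct a b n) - m * Real.log (Real.log n)) (by linarith [not_lt.1 h4])
      linarith
    · rw [norm_zero]
      positivity
    · rw [norm_zero]
  tfae_have 2 → 3 := by
    rintro ⟨h1, h2⟩
    refine ⟨savF_of_sav h1, fun ε hε => ⟨1 / 2, by norm_num, ?_⟩⟩
    refine (lsum_compl (h2 ε hε) (Eventually.of_forall fun n hn => ?_)).frequently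
    exact not_lt.1 hn
  tfae_have 3 → 1 := by
    rintro ⟨h1, h2⟩
    have hz := nz_of_savF H.gr H.lser h1
    obtain ⟨m, hm⟩ := Pool.Agent.W189.ML.order_finite_all H.lser 1
    obtain ⟨hT, -⟩ := lead_eq H hz hm
    have hkey : ∀ ε : ℝ, 0 < ε → ∀ n₀ : ℕ, ∃ n : ℕ, n₀ ≤ n ∧
        |((m : ℝ) - ρ) * Real.log (Real.log n) - (Real.log A - Real.log (TG F m))| ≤ ε := by
      intro ε hε n₀
      obtain ⟨ε', hε', hcl⟩ := log_close hA (half_pos hε)
      obtain ⟨η, hη, h3⟩ := h2 (ε' / 2) (half_pos hε')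
      obtain ⟨n, hn, h4, h5⟩ := inter_unbounded (rh_asy H hz hm (half_pos hε)) hη h3 (max n₀ 3)
      have hn3 : 3 ≤ n := (le_max_right _ _).trans hn
      refine ⟨n, (le_max_left _ _).trans hn, ?_⟩
      have h4' : |bsdProduct a b n / Real.log n ^ ρ - A| ≤ ε' / 2 := h4
      have h6 := hcl _ (show |bsdProduct a b n / Real.log n ^ ρ - A| < ε' by linarith)
      rw [quot_exp hn3, Real.log_exp] at h6
      have h7 := not_lt.1 h5
      have e1 : ((m : ℝ) - ρ) * Real.log (Real.log n) - (Real.log A - Real.log (TG F m)) =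
          (Real.log (bsdProduct a b n) - ρ * Real.log (Real.log n) - Real.log A) -
          (Real.log (bsdProduct a b n) - m * Real.log (Real.log n) - Real.log (TG F m)) := by ring
      rw [e1]
      refine (abs_sub _ _).trans ?_
      linarith
    obtain ⟨hρ, hκ⟩ := key_end hkey
    refine ⟨hz, m, hρ, hm, ?_⟩
    exact Real.log_injOn_pos (Set.mem_Ioi.2 hA) (Set.mem_Ioi.2 hT) (by linarith)
  tfae_finish

/-- few exceptions below `N` leave a set of positive logarithmic density -/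
theorem lsum_of_cnt {S : Set ℕ} {δ : ℝ} (hδ : 0 < δ) (hδ1 : δ ≤ 1)
    (h : ∃ᶠ N : ℕ in atTop, (cnt S N : ℝ) ≤ (N : ℝ) ^ (1 - δ)) :
    ∃ᶠ N : ℕ in atTop, δ / 4 * Real.log N ≤ lsum Sᶜ N := by
  have h2 : Tendsto (fun N : ℕ => δ / 4 * Real.log N) atTop atTop :=
    (Real.tendsto_log_atTop.comp tendsto_natCast_atTop_atTop).const_mul_atTop (by positivity)
  refine (h.and_eventually ((h2.eventually (eventually_ge_atTop 3)).and (eventually_ge_atTop 2))).mono ?_
  rintro N ⟨h1, h3, h4⟩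
  have hN : (2 : ℝ) ≤ N := by exact_mod_cast h4
  set M : ℕ := ⌊(N : ℝ) ^ (1 - δ / 2)⌋₊ with hM
  have hMle : (M : ℝ) ≤ (N : ℝ) ^ (1 - δ / 2) := Nat.floor_le (by positivity)
  have hMlt : (N : ℝ) ^ (1 - δ / 2) < M + 1 := Nat.lt_floor_add_one _
  have hpow1 : 1 ≤ (N : ℝ) ^ (1 - δ / 2) := Real.one_le_rpow (by linarith) (by linarith)
  have hM1 : 1 ≤ M := Nat.le_floor (by simpa using hpow1)
  have hM1r : (1 : ℝ) ≤ M := by exact_mod_cast hM1
  -- the sum over `M < n ≤ N`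
  have hMN : M ≤ N := by
    have : (M : ℝ) ≤ N := hMle.trans (by
      conv_rhs => rw [← Real.rpow_one (N : ℝ)]
      exact Real.rpow_le_rpow_of_exponent_le (by linarith) (by linarith))
    exact_mod_cast this
  have hharm : ∀ K : ℕ, 1 ≤ K → Real.log K ≤ ∑ n ∈ Finset.Icc 1 K, (1 : ℝ) / n ∧
      ∑ n ∈ Finset.Icc 1 K, (1 : ℝ) / n ≤ 1 + Real.log K := by
    intro K hK
    have h6 : (harmonic K : ℝ) = ∑ n ∈ Finset.Icc 1 K, (1 : ℝ) / n := by
      rw [harmonic_eq_sum_Icc]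
      push_cast
      refine Finset.sum_congr rfl fun n _ => ?_
      rw [one_div]
    rw [← h6]
    have hKr : (1 : ℝ) ≤ K := by exact_mod_cast hK
    refine ⟨?_, harmonic_le_one_add_log K⟩
    refine le_trans ?_ (log_add_one_le_harmonic K)
    exact Real.log_le_log (by linarith) (by push_cast; linarith)
  have h5 : ∑ n ∈ Finset.Icc 1 N, (1 : ℝ) / n ≤
      lsum Sᶜ N + (∑ n ∈ Finset.Icc 1 M, (1 : ℝ) / n + (cnt S N : ℝ) * (1 / M)) := by
    have e1 : ∑ n ∈ Finset.Icc 1 N, (1 : ℝ) / n ≤ ∑ n ∈ Finset.Icc 1 N, ((if n ∈ Sᶜ then (1 : ℝ) / n else 0) +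
        ((if n ≤ M then (1 : ℝ) / n else 0) + if n ∈ S then (1 : ℝ) / M else 0)) := by
      refine Finset.sum_le_sum fun n hn => ?_
      have hn1 := (Finset.mem_Icc.1 hn).1
      have p1 : (0 : ℝ) ≤ (if n ∈ Sᶜ then (1 : ℝ) / n else 0) := by positivity
      have p2 : (0 : ℝ) ≤ (if n ≤ M then (1 : ℝ) / n else 0) := by positivity
      have p3 : (0 : ℝ) ≤ (if n ∈ S then (1 : ℝ) / M else 0) := by positivity
      by_cases hS : n ∈ S
      · by_cases hnM : n ≤ M
        · rw [if_pos hnM] at p2 ⊢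
          linarith
        · rw [if_pos hS] at p3 ⊢
          have : (1 : ℝ) / n ≤ 1 / M := one_div_le_one_div_of_le (by linarith) (by
            exact_mod_cast (by omega : M ≤ n))
          linarith
      · rw [if_pos (show n ∈ Sᶜ from hS)] at p1 ⊢
        linarith
    refine e1.trans ?_
    rw [Finset.sum_add_distrib, Finset.sum_add_distrib]
    unfold lsum
    rw [Finset.sum_filter]
    refine add_le_add (le_of_eq ?_) (add_le_add (le_of_eq ?_) (le_of_eq ?_))
    · refine Finset.sum_congr rfl fun n _ => ?_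
      congr
    · rw [← Finset.sum_filter]
      refine Finset.sum_congr ?_ fun _ _ => rfl
      ext n
      simp only [Finset.mem_filter, Finset.mem_Icc]
      omega
    · rw [← Finset.sum_filter, Finset.sum_const, nsmul_eq_mul]
      congr 1
      unfold cnt
      rw [← Set.ncard_coe_finset]
      congr 2
      ext n
      simp only [Finset.coe_filter, Finset.mem_Icc, Set.mem_ofPred_eq, and_assoc]
  have h6 := (hharm N (by omega)).1
  have h7 := (hharm M hM1).2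
  have h8 : Real.log M ≤ (1 - δ / 2) * Real.log N := by
    rw [← Real.log_rpow (by linarith)]
    exact Real.log_le_log (by linarith) hMle
  have h9 : (cnt S N : ℝ) * (1 / M) ≤ 2 := by
    rw [mul_one_div, div_le_iff₀ (by linarith)]
    have e1 : (N : ℝ) ^ (1 - δ) ≤ (N : ℝ) ^ (1 - δ / 2) :=
      Real.rpow_le_rpow_of_exponent_le (by linarith) (by linarith)
    linarith
  nlinarith

/-- **Goldfeld's theorem with exceptional cut-offs.** -/
theorem goldfeld (H : Hy a b F) (ρ : ℝ) {A δ : ℝ} (hA : 0 < A) (hδ : 0 < δ)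
    (h : ∀ ε : ℝ, 0 < ε → ∃ᶠ N : ℕ in atTop,
      (cnt {n : ℕ | ε < |bsdProduct a b n / Real.log n ^ ρ - A|} N : ℝ) ≤ (N : ℝ) ^ (1 - δ)) :
    NZ F ∧ ∃ m : ℕ, ρ = m ∧ analyticOrderAt F 1 = m ∧ A = TG F m := by
  have hδ' : ∀ ε : ℝ, 0 < ε → ∃ᶠ N : ℕ in atTop,
      (cnt {n : ℕ | ε < |bsdProduct a b n / Real.log n ^ ρ - A|} N : ℝ) ≤ (N : ℝ) ^ (1 - min δ 1) := by
    intro ε hε
    refine ((h ε hε).and_eventually (eventually_ge_atTop 1)).mono ?_
    rintro N ⟨h1, h2⟩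
    refine h1.trans (Real.rpow_le_rpow_of_exponent_le (by exact_mod_cast h2) ?_)
    linarith [min_le_left δ 1]
  have hd0 : 0 < min δ 1 := lt_min hδ one_pos
  have hd1 : min δ 1 ≤ 1 := min_le_right _ _
  have t : (SavF a b ∧ ∀ ε : ℝ, 0 < ε → ∃ η : ℝ, 0 < η ∧ ∃ᶠ N : ℕ in atTop, η * Real.log N ≤
      lsum {n : ℕ | |bsdProduct a b n / Real.log n ^ ρ - A| ≤ ε} N) ↔
      (NZ F ∧ ∃ m : ℕ, ρ = m ∧ analyticOrderAt F 1 = m ∧ A = TG F m) := (crit_const H ρ hA).out 2 0
  refine t.1 ⟨fun ε hε => ⟨min δ 1 / 2, by positivity, ?_⟩, fun ε hε => ⟨min δ 1 / 4, by positivity, ?_⟩⟩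
  · -- the weak bound
    have hev : ∀ᶠ n : ℕ in atTop, Real.log (A + 1) + ρ * Real.log (Real.log n) ≤ (n : ℝ) ^ ε := by
      obtain ⟨k, hk⟩ := exists_nat_ge |ρ|
      have h1 := tendsto_natCast_atTop_atTop.eventually (pow_beats (Real.log (A + 1)) k hε)
      filter_upwards [h1, eventually_ge_atTop 3] with n h2 h3
      have hnr : (3 : ℝ) ≤ n := by exact_mod_cast h3
      have he : Real.exp 1 < 3 := by
        have := Real.exp_one_lt_d9
        linarith
      have hl1 : 1 ≤ Real.log n := by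
        rw [Real.le_log_iff_exp_le (by linarith)]
        linarith
      have h4 : 0 ≤ Real.log (Real.log n) := Real.log_nonneg hl1
      have h5 : ρ * Real.log (Real.log n) ≤ k * Real.log (Real.log n) :=
        mul_le_mul_of_nonneg_right ((le_abs_self ρ).trans hk) h4
      linarith
    obtain ⟨n₀, hn₀⟩ := eventually_atTop.1 hev
    have hbig : ∀ᶠ N : ℕ in atTop, (N : ℝ) ^ (1 - min δ 1) + (max n₀ 3 : ℕ) ≤ (N : ℝ) ^ (1 - min δ 1 / 2) := by
      have e1 : ∀ᶠ N : ℕ in atTop, ((max n₀ 3 : ℕ) : ℝ) + 1 ≤ (N : ℝ) ^ (min δ 1 / 2) :=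
        ((tendsto_rpow_atTop (show 0 < min δ 1 / 2 by positivity)).comp
          tendsto_natCast_atTop_atTop).eventually (eventually_ge_atTop _)
      filter_upwards [e1, eventually_ge_atTop 1] with N h1 h2
      have hN : (1 : ℝ) ≤ N := by exact_mod_cast h2
      have e2 : (N : ℝ) ^ (1 - min δ 1 / 2) = (N : ℝ) ^ (1 - min δ 1) * (N : ℝ) ^ (min δ 1 / 2) := by
        rw [← Real.rpow_add (by linarith)]
        congr 1
        ring
      have e3 : 1 ≤ (N : ℝ) ^ (1 - min δ 1) := Real.one_le_rpow hN (by linarith)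
      have e4 : (0 : ℝ) ≤ ((max n₀ 3 : ℕ) : ℝ) := Nat.cast_nonneg _
      rw [e2]
      nlinarith
    refine ((hδ' 1 one_pos).and_eventually hbig).mono ?_
    rintro N ⟨h1, h2⟩
    have h3 : cnt {n : ℕ | (n : ℝ) ^ ε < Real.log (bsdProduct a b n)} N ≤
        cnt {n : ℕ | 1 < |bsdProduct a b n / Real.log n ^ ρ - A|} N + (max n₀ 3) := by
      have e1 : cnt {n : ℕ | (n : ℝ) ^ ε < Real.log (bsdProduct a b n)} N ≤
          cnt ({n : ℕ | 1 < |bsdProduct a b n / Real.log n ^ ρ - A|} ∪ {n : ℕ | n ≤ max n₀ 3}) N := by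
        refine cnt_mono fun n hn _ h4 => ?_
        by_cases hn3 : n ≤ max n₀ 3
        · exact Or.inr hn3
        · refine Or.inl ?_
          push Not at hn3
          have k1 := hn₀ n ((le_max_left _ _).trans hn3.le)
          have k2 : (n : ℝ) ^ ε < Real.log (bsdProduct a b n) := h4
          show 1 < |bsdProduct a b n / Real.log n ^ ρ - A|
          rw [quot_exp ((le_max_right _ _).trans hn3.le)]
          have k3 : Real.log (A + 1) < Real.log (bsdProduct a b n) - ρ * Real.log (Real.log n) := by linarith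
          have k4 := Real.exp_lt_exp.2 k3
          rw [Real.exp_log (by linarith)] at k4
          exact lt_of_lt_of_le (by linarith) (le_abs_self _)
      refine e1.trans ((cnt_union _ _ N).trans (Nat.add_le_add_left ?_ _))
      unfold cnt
      refine le_trans (Set.ncard_le_ncard (t := Set.Icc 1 (max n₀ 3)) (fun n hn => ⟨hn.1, hn.2.2⟩)
        (Set.finite_Icc _ _)) ?_
      rw [Set.ncard_eq_toFinset_card']
      simp
    have h4 : (cnt {n : ℕ | (n : ℝ) ^ ε < Real.log (bsdProduct a b n)} N : ℝ) ≤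
        cnt {n : ℕ | 1 < |bsdProduct a b n / Real.log n ^ ρ - A|} N + (max n₀ 3 : ℕ) := by
      exact_mod_cast h3
    linarith
  · have h1 := lsum_of_cnt hd0 hd1 (hδ' ε hε)
    refine h1.mono fun N hN => hN.trans (le_of_eq ?_)
    unfold lsum
    congr 1
    ext n
    simp only [Finset.mem_filter, Set.mem_compl_iff, Set.mem_ofPred_eq, not_lt]

end Pool.Agent.H424.BX
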