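import Pool.Agent.H424.BX.ExcSum
import Pool.Agent.H424.BX.Count

/-! The summatory function is large on sets of almost full logarithmic size. -/

set_option autoImplicit false

open Complex MeasureTheory Set Filter Topology
open Pool.Agent.W189.TP (DS DS_diff DS_norm_le summ_mono)
open Pool.Agent.TH949.TX

namespace Pool.Agent.H424.BX

variable {ι : Type*} [Countable ι] {d L : ι → ℝ}

/-- **Large values on large sets.**  The measure of the points `u` near `Y` at which the summatory function is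
larger than `e^{cu}` is at least `e^{-δY}`. -/
theorem many (hL : ∀ i, 0 ≤ L i)
    (habs : ∀ t : ℝ, 1 < t → Summable fun i => |d i| * Real.exp (-(t * L i)))
    {F : ℂ → ℂ} (hF : MeromorphicOn F univ) (hE : ∀ s : ℂ, 1 < s.re → F s = cexp (DS d L s))
    {c : ℝ} (hc0 : 0 ≤ c) (hreal : ∀ x : ℝ, c < x → meromorphicOrderAt F (x : ℂ) ≤ 0)
    (hc : ∃ ρ : ℂ, c < ρ.re ∧ meromorphicOrderAt F ρ ≠ 0)
    (hl2 : ∀ b : ℝ, c < b → (∀ ρ : ℂ, meromorphicOrderAt F ρ ≠ 0 → ρ.re ≤ b) → ∀ x : ℝ, b < x →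
      Integrable fun u : ℝ => AA d L u ^ 2 * Real.exp (-(2 * x * u)))
    {lam δ : ℝ} (hlam : 0 < lam) (hlam1 : lam ≤ 1) (hδ : 0 < δ) :
    ∀ᶠ Y : ℝ in atTop, ENNReal.ofReal (Real.exp (-(δ * Y))) ≤
      volume {u : ℝ | |u - Y| ≤ lam * Y ∧ Real.exp (c * u) ≤ AA d L u} := by
  have h2' := habs 2 (by norm_num)
  obtain ⟨hAm, hA0, hAb⟩ := t_AA hL h2'
  obtain ⟨b, hcb, hb1, hbs, hmain⟩ := main_avg hL habs hF hE hc0 hreal hc
  set B : ℝ := ∑' i, |d i| * Real.exp (-(2 * L i)) with hB
  have hB0 : 0 ≤ B := tsum_nonneg fun i => by positivity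
  obtain ⟨σ, hσ1, hσ2, hσc, hbig⟩ := hmain lam hlam hlam1 (δ / 16) (by positivity) (2 + B / 2) (by positivity)
  set x : ℝ := b + δ / 16 with hx
  have hint := hl2 b hcb hbs x (by rw [hx]; linarith)
  set C : ℝ := ∫ u : ℝ, AA d L u ^ 2 * Real.exp (-(2 * x * u)) with hC
  have hC0 : 0 ≤ C := integral_nonneg fun u => by positivity
  have hσ0 : 0 ≤ σ := by linarith
  have hη0 : 0 < lam ^ 2 / 100 := by positivity
  have hpi : 0 < 4 * Real.pi * (lam ^ 2 / 100) := by positivity
  have hdec : ∀ᶠ Y : ℝ in atTop, (C + 1) / 2 * Real.exp (-(δ / 4 * Y)) < 1 := by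
    have h1 : Tendsto (fun Y : ℝ => (C + 1) / 2 * Real.exp (-(δ / 4 * Y))) atTop (𝓝 ((C + 1) / 2 * 0)) := by
      refine Tendsto.const_mul _ ?_
      refine Real.tendsto_exp_neg_atTop_nhds_zero.comp ?_
      exact Tendsto.const_mul_atTop (by positivity) tendsto_id
    rw [mul_zero] at h1
    exact h1.eventually (gt_mem_nhds one_pos)
  filter_upwards [hbig, hdec, eventually_ge_atTop 1, eventually_ge_atTop (1 / (4 * Real.pi * (lam ^ 2 / 100)))]
    with Y a1 a2 a3 a4
  have hY1 : 1 ≤ 4 * Real.pi * (lam ^ 2 / 100 * Y) := by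
    rw [div_le_iff₀ hpi] at a4
    linarith
  set U : Set ℝ := {u : ℝ | |u - Y| ≤ lam * Y ∧ Real.exp (c * u) ≤ AA d L u} with hU
  have hUm : MeasurableSet U := by
    refine MeasurableSet.inter (measurableSet_le (show Measurable fun u : ℝ => |u - Y| by fun_prop) measurable_const) ?_
    exact measurableSet_le (show Measurable fun u : ℝ => Real.exp (c * u) by fun_prop) hAm
  have hUb : U ⊆ Icc (Y - lam * Y) (Y + lam * Y) := by
    rintro u ⟨hu, -⟩
    rw [abs_le] at hu
    constructor <;> linarith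
  have hUfin : volume U < ⊤ := (measure_mono hUb).trans_lt (by simp)
  have h1 := pos_split hL h2' (Y := Y) hlam hlam1 rfl hσ0 a3 hY1 hσc.le
  rw [← hB, ← hU] at h1
  have h3 : 1 < ∫ u in U, |AA d L u| * Real.exp (-(σ * u)) := by linarith
  -- the contrary
  by_contra hcon
  push Not at hcon
  set v : ℝ := volume.real U with hv
  have hv1 : v ≤ Real.exp (-(δ * Y)) := by
    rw [hv, Measure.real]
    exact ENNReal.toReal_le_of_le_ofReal (Real.exp_pos _).le hcon.le
  have hv0 : 0 ≤ v := measureReal_nonneg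
  set t : ℝ := Real.exp (-(δ * Y / 2)) with ht
  have ht0 : 0 < t := Real.exp_pos _
  have htt : t * t = Real.exp (-(δ * Y)) := by
    rw [ht, ← Real.exp_add]
    congr 1
    ring
  have hx0 : 0 ≤ x - σ := by rw [hx]; linarith
  have hx1 : x - σ ≤ δ / 8 := by rw [hx]; linarith
  -- the pointwise bound
  have hpt : ∀ u ∈ U, |AA d L u| * Real.exp (-(σ * u)) ≤
      Real.exp (δ / 4 * Y) * ((t * (AA d L u ^ 2 * Real.exp (-(2 * x * u))) + 1 / t) / 2) := by
    intro u hu
    have hu1 := hUb hu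
    have e1 : Real.exp (-(σ * u)) = Real.exp ((x - σ) * u) * Real.exp (-(x * u)) := by
      rw [← Real.exp_add]
      congr 1
      ring
    have e2 : Real.exp ((x - σ) * u) ≤ Real.exp (δ / 4 * Y) := by
      refine Real.exp_le_exp.2 ?_
      have e3 : u ≤ 2 * Y := by nlinarith [hu1.2]
      have e4 : 0 ≤ u := by nlinarith [hu1.1]
      calc (x - σ) * u ≤ δ / 8 * u := mul_le_mul_of_nonneg_right hx1 e4
        _ ≤ δ / 8 * (2 * Y) := mul_le_mul_of_nonneg_left e3 (by positivity)
        _ = δ / 4 * Y := by ring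
    have e5 : |AA d L u| * Real.exp (-(x * u)) ≤
        (t * (AA d L u ^ 2 * Real.exp (-(2 * x * u))) + 1 / t) / 2 := by
      set q : ℝ := |AA d L u| * Real.exp (-(x * u)) with hq
      have e6 : AA d L u ^ 2 * Real.exp (-(2 * x * u)) = q ^ 2 := by
        rw [hq, mul_pow, sq_abs, ← Real.exp_nat_mul]
        congr 2
        push_cast
        ring
      rw [e6, le_div_iff₀ two_pos]
      have e7 : 0 ≤ (t * q - 1) ^ 2 := sq_nonneg _
      have e8 : t * q ^ 2 + 1 / t - q * 2 = (t * q - 1) ^ 2 / t := by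
        field_simp
        ring
      have e9 : 0 ≤ (t * q - 1) ^ 2 / t := div_nonneg e7 ht0.le
      linarith
    calc |AA d L u| * Real.exp (-(σ * u)) = Real.exp ((x - σ) * u) * (|AA d L u| * Real.exp (-(x * u))) := by
          rw [e1]; ring
      _ ≤ Real.exp (δ / 4 * Y) * ((t * (AA d L u ^ 2 * Real.exp (-(2 * x * u))) + 1 / t) / 2) :=
          mul_le_mul e2 e5 (by positivity) (Real.exp_pos _).le
  have hi2 : IntegrableOn (fun u : ℝ => Real.exp (δ / 4 * Y) *
      ((t * (AA d L u ^ 2 * Real.exp (-(2 * x * u))) + 1 / t) / 2)) U := by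
    have k1 : IntegrableOn (fun u : ℝ => t * (AA d L u ^ 2 * Real.exp (-(2 * x * u)))) U :=
      (hint.const_mul t).integrableOn
    have k2 : IntegrableOn (fun _ : ℝ => 1 / t) U := integrableOn_const hUfin.ne
    exact ((k1.add k2).div_const 2).const_mul _
  have hi1 : IntegrableOn (fun u : ℝ => |AA d L u| * Real.exp (-(σ * u))) U := by
    refine hi2.mono' (hAm.abs.mul (show Measurable fun u : ℝ => Real.exp (-(σ * u)) by
      fun_prop)).aestronglyMeasurable ?_
    filter_upwards [ae_restrict_mem hUm] with u hu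
    rw [Real.norm_eq_abs, abs_of_nonneg (by positivity)]
    exact hpt u hu
  have h4 : ∫ u in U, |AA d L u| * Real.exp (-(σ * u)) ≤
      ∫ u in U, Real.exp (δ / 4 * Y) * ((t * (AA d L u ^ 2 * Real.exp (-(2 * x * u))) + 1 / t) / 2) :=
    setIntegral_mono_on hi1 hi2 hUm hpt
  have h5 : ∫ u in U, Real.exp (δ / 4 * Y) * ((t * (AA d L u ^ 2 * Real.exp (-(2 * x * u))) + 1 / t) / 2) =
      Real.exp (δ / 4 * Y) * ((t * (∫ u in U, AA d L u ^ 2 * Real.exp (-(2 * x * u))) + v * (1 / t)) / 2) := by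
    rw [integral_const_mul, integral_div, integral_add (hint.const_mul t).integrableOn
      (integrableOn_const hUfin.ne), integral_const_mul, setIntegral_const, smul_eq_mul]
  have h6 : ∫ u in U, AA d L u ^ 2 * Real.exp (-(2 * x * u)) ≤ C :=
    setIntegral_le_integral hint (Eventually.of_forall fun u => by positivity)
  have h7 : v * (1 / t) ≤ t := by
    rw [mul_one_div, div_le_iff₀ ht0, htt]
    exact hv1
  have h8 : Real.exp (δ / 4 * Y) * ((t * (∫ u in U, AA d L u ^ 2 * Real.exp (-(2 * x * u))) + v * (1 / t)) / 2) ≤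
      Real.exp (δ / 4 * Y) * ((t * C + t) / 2) := by gcongr
  have h9 : Real.exp (δ / 4 * Y) * ((t * C + t) / 2) = (C + 1) / 2 * Real.exp (-(δ / 4 * Y)) := by
    have e1 : Real.exp (δ / 4 * Y) * t = Real.exp (-(δ / 4 * Y)) := by
      rw [ht, ← Real.exp_add]
      congr 1
      ring
    rw [← e1]
    ring
  linarith

end Pool.Agent.H424.BX
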