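import Pool.Agent.H424.BX.L2
import Pool.Agent.H424.BX.Exc
import Pool.Agent.H424.BX.Conv
import Pool.Agent.TH949.TX.BSDW
import Pool.Agent.TH949.TX.BSDI
import Pool.Agent.TH942.RZ.Curve

/-! The products of Birch and Swinnerton-Dyer: the number of large and of small values. -/

set_option autoImplicit false

open Complex MeasureTheory Set Filter Topology Classical
open Pool.Agent.W189.TP (DS)
open Pool.Agent.TH949.TX
open Pool.Agent.W263.BSD
open Pool.Agent.TH942.LS (lm cE dat lm_eq Dat)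
open Pool.Agent.TH942.SL (GK GK_exp GK_deriv small_ne)
open Pool.Agent.TH942.RZ (GK_bound GK_far)
open Pool.Agent.TH270.MS (Sh)

namespace Pool.Agent.H424.BX

variable {a b : ℤ} {F : ℂ → ℂ}

/-- the growth hypothesis; it holds for every elliptic curve -/
def Gr (a b : ℤ) (F : ℂ → ℂ) : Prop :=
  ∃ C : ℝ, ∀ s : ℂ, 0 < s.re → ‖PhiF a b F s‖ ≤ C * (1 + ‖s‖) * (1 + 1 / s.re) ^ 2

/-- the logarithm of the product as a partial sum -/
theorem sh_eq (a b : ℤ) (u : ℝ) : Sh lm (cE a b) u = Real.log (bsdProduct a b (Real.exp u)) := by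
  rw [log_bsdProduct]
  unfold rieszMean Sh
  simp only [pow_zero, one_mul]
  rw [tsum_eq_sum (s := (Finset.range (⌊Real.exp u⌋₊ + 1)).filter (GoodPrime a b))]
  · refine Finset.sum_congr rfl fun p hp => ?_
    obtain ⟨h1, h2⟩ := Finset.mem_filter.1 hp
    have hp0 : (0 : ℝ) < p := by exact_mod_cast h2.1.pos
    have h3 : lm p ≤ u := by
      rw [lm_eq h2.1.two_le, Real.log_le_iff_le_exp hp0]
      rw [Finset.mem_range, Nat.lt_succ_iff] at h1
      exact (Nat.le_floor_iff (Real.exp_pos u).le).1 h1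
    rw [if_pos h3]
    unfold cE
    rw [if_pos h2]
  · intro p hp
    by_cases hg : GoodPrime a b p
    · have h1 : p ∉ Finset.range (⌊Real.exp u⌋₊ + 1) := fun h => hp (Finset.mem_filter.2 ⟨h, hg⟩)
      rw [Finset.mem_range, not_lt] at h1
      have hp0 : (0 : ℝ) < p := by exact_mod_cast hg.1.pos
      have h2 : Real.exp u < p := (Nat.floor_lt (Real.exp_pos u).le).1 h1
      rw [if_neg]
      rw [lm_eq hg.1.two_le, not_le]
      rwa [Real.lt_log_iff_exp_lt hp0]
    · unfold cE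
      rw [if_neg hg]
      simp

/-- the mean square of the logarithm of the product -/
theorem curve_l2 (hg : Gr a b F) (hF : IsLSeries a b F) {θ : ℝ} (hθ : 0 ≤ θ)
    (hz : ∀ s : ℂ, 1 + θ < s.re → F s ≠ 0) {x : ℝ} (hx : θ < x) :
    Integrable fun u : ℝ => Real.log (bsdProduct a b (Real.exp u)) ^ 2 * Real.exp (-(2 * x * u)) := by
  obtain ⟨C, hC⟩ := hg
  obtain ⟨A, hA⟩ := GK_bound a b
  obtain ⟨A', hA'⟩ := GK_far a b
  have h := l2 (dat a b) hθ (Ψ := PhiF a b F) (G := GK a b) (C := |C|) (κ := 2) (A := A) (A' := A')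
    (fun s _ => PhiF_differentiable hF s)
    (fun s hs => by
      unfold PhiF
      exact mul_ne_zero (hz _ (by rw [Complex.add_re, Complex.one_re]; linarith)) (small_ne (by linarith)))
    (fun s hs => (GK_deriv hs).differentiableAt) (fun s hs => GK_exp hF (by linarith))
    (fun s hs => by
      refine (hC s hs).trans ?_
      have h1 : 1 ≤ 1 + ‖s‖ := by linarith [norm_nonneg s]
      have h2 : (1 + ‖s‖) ^ 1 ≤ (1 + ‖s‖) ^ 2 := pow_le_pow_right₀ h1 (by norm_num)
      rw [pow_one] at h2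
      have h3 : C * (1 + ‖s‖) ≤ |C| * (1 + ‖s‖) ^ 2 :=
        mul_le_mul (le_abs_self C) h2 (by linarith) (abs_nonneg C)
      exact mul_le_mul_of_nonneg_right h3 (by positivity)) hA' hA hx
  refine h.congr (Eventually.of_forall fun u => ?_)
  simp only
  rw [sh_eq]

theorem hT (a b : ℤ) : ∀ p ∈ SS a b, p.Prime := fun p hp => hp.1.1

theorem hα1 (a b : ℤ) : ∀ p ∈ SS a b, ∀ i, ‖pr a b p i‖ ≤ 1 := by
  intro p hp i
  refine (pr_norm_le p i).trans ?_
  refine Real.rpow_le_one_of_one_le_of_nonpos ?_ (by norm_num)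
  exact_mod_cast hp.1.1.one_le

theorem hL0 (a b : ℤ) : ∀ x : SS a b × ℕ, 0 ≤ LP x := by
  intro x
  unfold LP
  have : (1 : ℝ) ≤ ((x.1 : ℕ) : ℝ) := by exact_mod_cast (hT a b _ x.1.2).one_le
  have := Real.log_nonneg this
  positivity

/-- the mean square of the summatory function over the prime powers -/
theorem AA_l2 (hg : Gr a b F) (hF : IsLSeries a b F) {θ : ℝ} (hθ : 0 ≤ θ)
    (hz : ∀ s : ℂ, 1 + θ < s.re → F s ≠ 0) {x : ℝ} (hx : θ < x) :
    Integrable fun u : ℝ => AA (dP (T := SS a b) (pr a b)) LP u ^ 2 * Real.exp (-(2 * x * u)) := by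
  obtain ⟨B, hB0, hB⟩ := AA_approx a b
  obtain ⟨hs, -⟩ := Pool.Agent.TH720.TXE.t_euler (hT a b) (hα1 a b) (fun p _ k => pr_im p k)
  obtain ⟨hAm, hA0, -⟩ := t_AA (hL0 a b) (hs 2 (by norm_num))
  have hx0 : 0 < x := by linarith
  have h1 := curve_l2 hg hF hθ hz hx
  have h2 : IntegrableOn (fun u : ℝ => (1 + u) ^ 2 * Real.exp (-(2 * x * u))) (Ioi 0) := by
    have k1 : ∀ n : ℕ, IntegrableOn (fun u : ℝ => u ^ n * Real.exp (-(2 * x * u))) (Ioi 0) := by
      intro n
      have k2 := integrableOn_rpow_mul_exp_neg_mul_rpow (p := 1) (s := n) (b := 2 * x)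
        (by linarith [Nat.cast_nonneg (α := ℝ) n]) one_pos (by linarith)
      refine k2.congr_fun (fun u hu => ?_) measurableSet_Ioi
      simp only [Real.rpow_one, Real.rpow_natCast]
      congr 2
      ring
    have k3 := ((k1 0).add ((k1 1).const_mul 2)).add (k1 2)
    refine k3.congr_fun (fun u hu => ?_) measurableSet_Ioi
    simp only [Pi.add_apply]
    ring
  have h3 : Integrable fun u : ℝ => 2 * (Real.log (bsdProduct a b (Real.exp u)) ^ 2 * Real.exp (-(2 * x * u))) +
      (Ioi (0 : ℝ)).indicator (fun u : ℝ => 2 * B ^ 2 * ((1 + u) ^ 2 * Real.exp (-(2 * x * u)))) u :=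
    (h1.const_mul 2).add ((integrable_indicator_iff measurableSet_Ioi).2 (h2.const_mul (2 * B ^ 2)))
  refine h3.mono' ((hAm.pow_const 2).mul (show Measurable fun u : ℝ => Real.exp (-(2 * x * u)) by
    fun_prop)).aestronglyMeasurable ?_
  have h0 : ∀ᵐ u : ℝ, u ≠ 0 := by
    refine (measure_eq_zero_iff_ae_notMem.1 (Real.volume_singleton (a := (0 : ℝ)))).mono fun u hu => ?_
    simpa using hu
  filter_upwards [h0] with u hu0
  rw [Real.norm_eq_abs, abs_of_nonneg (by positivity)]
  rcases lt_or_gt_of_ne hu0 with hu | hu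
  · rw [hA0 u hu]
    have : 0 ≤ (Ioi (0 : ℝ)).indicator (fun u : ℝ => 2 * B ^ 2 * ((1 + u) ^ 2 * Real.exp (-(2 * x * u)))) u :=
      indicator_nonneg (fun v _ => by positivity) u
    have h4 : 0 ≤ 2 * (Real.log (bsdProduct a b (Real.exp u)) ^ 2 * Real.exp (-(2 * x * u))) := by positivity
    rw [zero_pow two_ne_zero, zero_mul]
    linarith
  · rw [indicator_of_mem (show u ∈ Ioi (0 : ℝ) from hu)]
    have h4 := abs_le.1 (hB u hu.le)
    set A := AA (dP (T := SS a b) (pr a b)) LP u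
    set P := Real.log (bsdProduct a b (Real.exp u))
    have h5 : A ^ 2 ≤ 2 * P ^ 2 + 2 * B ^ 2 * (1 + u) ^ 2 := by
      have h6 : (A - P) ^ 2 ≤ (B * (1 + u)) ^ 2 := by
        have : 0 ≤ B * (1 + u) := by positivity
        exact sq_le_sq' h4.1 h4.2
      nlinarith [sq_nonneg (A - 2 * P)]
    have h7 := Real.exp_pos (-(2 * x * u))
    nlinarith

/-- the number of large values of `|log P(n)|` -/
theorem upper_count (hg : Gr a b F) (hF : IsLSeries a b F) {θ : ℝ} (hθ : 0 ≤ θ)
    (hz : ∀ s : ℂ, 1 + θ < s.re → F s ≠ 0) {κ : ℝ} (h1 : θ < κ) (h2 : κ ≤ θ + 1 / 2) {ε : ℝ} (hε : 0 < ε) :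
    ∀ᶠ N : ℕ in atTop, (cnt {n : ℕ | (n : ℝ) ^ κ < |Real.log (bsdProduct a b n)|} N : ℝ) ≤
      (N : ℝ) ^ (1 - 2 * (κ - θ) + ε) := by
  set x : ℝ := θ + ε / 4 with hx
  have h3 := curve_l2 hg hF hθ hz (x := x) (by rw [hx]; linarith)
  have h4 : Integrable fun u : ℝ => (fun n : ℕ => Real.log (bsdProduct a b n)) ⌊Real.exp u⌋₊ ^ 2 *
      Real.exp (-(2 * x * u)) := by
    refine h3.congr (Eventually.of_forall fun u => ?_)
    simp only
    rw [P_floor]
  obtain ⟨C, hC0, hC⟩ := count_upper (f := fun n : ℕ => Real.log (bsdProduct a b n)) (κ := κ) (x := x) (by rw [hx]; positivity) (by rw [hx]; linarith) h4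
  have h5 : ∀ᶠ N : ℕ in atTop, C ≤ (N : ℝ) ^ (ε / 2) :=
    ((tendsto_rpow_atTop (show 0 < ε / 2 by positivity)).comp tendsto_natCast_atTop_atTop).eventually
      (eventually_ge_atTop C)
  filter_upwards [h5, eventually_ge_atTop 1] with N k1 k2
  have hN : (1 : ℝ) ≤ N := by exact_mod_cast k2
  refine (hC N k2).trans ?_
  have e1 : (N : ℝ) ^ (1 - 2 * (κ - θ) + ε) = (N : ℝ) ^ (ε / 2) * (N : ℝ) ^ (1 - 2 * (κ - x)) := by
    rw [← Real.rpow_add (by linarith)]
    congr 1
    rw [hx]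
    ring
  rw [e1]
  gcongr

/-- zeros make many of the products large -/
theorem up_count (hg : Gr a b F) (hF : IsLSeries a b F) {c : ℝ} (hc0 : 0 ≤ c) {ρ : ℂ} (hρ : 1 + c < ρ.re)
    (h0 : F ρ = 0) {δ : ℝ} (hδ : 0 < δ) (C : ℝ) :
    ∀ᶠ N : ℕ in atTop, (N : ℝ) ^ (1 - δ) ≤ cnt {n : ℕ | C * (n : ℝ) ^ c < Real.log (bsdProduct a b n)} N := by
  obtain ⟨B, hB0, hB⟩ := AA_approx a b
  obtain ⟨hs, he⟩ := Pool.Agent.TH720.TXE.t_euler (hT a b) (hα1 a b) (fun p _ k => pr_im p k)
  have hΦ := PhiF_differentiable hF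
  have hfin : ∀ s : ℂ, ∃ k : ℕ, analyticOrderAt (PhiF a b F) s = k := by
    intro s
    have hne : analyticOrderAt (PhiF a b F) s ≠ ⊤ := by
      intro htop
      rw [analyticOrderAt_eq_top] at htop
      have h1 : AnalyticOnNhd ℂ (PhiF a b F) univ := hΦ.differentiableOn.analyticOnNhd isOpen_univ
      have h2 := h1.eqOn_zero_of_preconnected_of_eventuallyEq_zero isPreconnected_univ
        (mem_univ s) htop
      have h3 : PhiF a b F 2 = 0 := h2 (mem_univ _)
      have h4 := he 2 (by norm_num) _ (bsd_hasProd hF (s := 2) (by norm_num))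
      rw [h3, inv_zero] at h4
      exact (Complex.exp_ne_zero _) h4.symm
    exact ⟨_, (ENat.natCast_toNat hne).symm⟩
  have hord : ∀ s : ℂ, ∃ k : ℕ, analyticOrderAt (PhiF a b F) s = k ∧
      meromorphicOrderAt (PhiF a b F)⁻¹ s = ((-(k : ℤ) : ℤ) : WithTop ℤ) := by
    intro s
    obtain ⟨k, hk⟩ := hfin s
    refine ⟨k, hk, ?_⟩
    rw [meromorphicOrderAt_inv, (hΦ.analyticAt s).meromorphicOrderAt_eq, hk]
    rfl
  set c' : ℝ := (c + (ρ.re - 1)) / 2 with hc'
  refine count_of_many (A := AA (dP (T := SS a b) (pr a b)) LP)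
    (g := fun n : ℕ => Real.log (bsdProduct a b n)) (B := B) (c := c) (c' := c') (by rw [hc']; linarith) hc0
    (fun u hu => ?_) (fun lam δ' hl hl1 hδ' => ?_) hδ C
  · have h1 := (abs_le.1 (hB u hu)).2
    rw [P_floor]
    linarith
  · refine many (hL0 a b) hs (F := (PhiF a b F)⁻¹) (fun s _ => (hΦ.analyticAt s).meromorphicAt.inv)
      (fun s hs => he s hs _ (bsd_hasProd hF hs)) (c := c') (by rw [hc']; linarith) ?_ ⟨ρ - 1, ?_, ?_⟩ ?_
      hl hl1 hδ'
    · intro x _
      obtain ⟨k, -, hk⟩ := hord (x : ℂ)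
      rw [hk]
      have : -(k : ℤ) ≤ 0 := by omega
      exact_mod_cast this
    · rw [Complex.sub_re, Complex.one_re, hc']
      linarith
    · obtain ⟨k, hk1, hk⟩ := hord (ρ - 1)
      rw [hk]
      intro h
      have h1 : (-(k : ℤ)) = 0 := by exact_mod_cast h
      have h2 : k = 0 := by omega
      rw [h2, Nat.cast_zero, (hΦ.analyticAt (ρ - 1)).analyticOrderAt_eq_zero] at hk1
      refine hk1 ?_
      unfold PhiF
      rw [add_sub_cancel, h0, zero_mul]
    · intro b' hb' hbs x hx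
      have hb0 : 0 ≤ b' := by
        have : 0 ≤ c' := by rw [hc']; linarith
        linarith
      refine AA_l2 hg hF hb0 (fun s hs hs0 => ?_) hx
      have h1 := hbs (s - 1) (by
        obtain ⟨k, hk1, hk⟩ := hord (s - 1)
        rw [hk]
        intro h
        have h1 : (-(k : ℤ)) = 0 := by exact_mod_cast h
        have h2 : k = 0 := by omega
        rw [h2, Nat.cast_zero, (hΦ.analyticAt (s - 1)).analyticOrderAt_eq_zero] at hk1
        refine hk1 ?_
        unfold PhiF
        rw [add_sub_cancel, hs0, zero_mul])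
      rw [Complex.sub_re, Complex.one_re] at h1
      linarith

/-- without real zeros, zeros make many of the products small -/
theorem down_count (hg : Gr a b F) (hF : IsLSeries a b F) {c : ℝ} (hc0 : 0 ≤ c)
    (hreal : ∀ s : ℝ, 1 + c < s → F s ≠ 0) {ρ : ℂ} (hρ : 1 + c < ρ.re)
    (h0 : F ρ = 0) {δ : ℝ} (hδ : 0 < δ) (C : ℝ) :
    ∀ᶠ N : ℕ in atTop, (N : ℝ) ^ (1 - δ) ≤ cnt {n : ℕ | Real.log (bsdProduct a b n) < -(C * (n : ℝ) ^ c)} N := by
  obtain ⟨B, hB0, hB⟩ := AA_approx a b
  obtain ⟨hs, he⟩ := Pool.Agent.TH720.TXE.t_euler (hT a b) (hα1 a b) (fun p _ k => pr_im p k)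
  have hΦ := PhiF_differentiable hF
  have hfin : ∀ s : ℂ, ∃ k : ℕ, analyticOrderAt (PhiF a b F) s = k := by
    intro s
    have hne : analyticOrderAt (PhiF a b F) s ≠ ⊤ := by
      intro htop
      rw [analyticOrderAt_eq_top] at htop
      have h1 : AnalyticOnNhd ℂ (PhiF a b F) univ := hΦ.differentiableOn.analyticOnNhd isOpen_univ
      have h2 := h1.eqOn_zero_of_preconnected_of_eventuallyEq_zero isPreconnected_univ
        (mem_univ s) htop
      have h3 : PhiF a b F 2 = 0 := h2 (mem_univ _)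
      have h4 := he 2 (by norm_num) _ (bsd_hasProd hF (s := 2) (by norm_num))
      rw [h3, inv_zero] at h4
      exact (Complex.exp_ne_zero _) h4.symm
    exact ⟨_, (ENat.natCast_toNat hne).symm⟩
  have hord : ∀ s : ℂ, ∃ k : ℕ, analyticOrderAt (PhiF a b F) s = k ∧
      meromorphicOrderAt (PhiF a b F) s = (((k : ℤ) : ℤ) : WithTop ℤ) := by
    intro s
    obtain ⟨k, hk⟩ := hfin s
    refine ⟨k, hk, ?_⟩
    rw [(hΦ.analyticAt s).meromorphicOrderAt_eq, hk]
    rfl
  set c' : ℝ := (c + (ρ.re - 1)) / 2 with hc'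
  have hcc : c < c' := by rw [hc']; linarith
  have hs' : ∀ t : ℝ, 1 < t → Summable fun x : SS a b × ℕ => |(fun x => -dP (pr a b) x) x| *
      Real.exp (-(t * LP x)) := by
    intro t ht
    simpa only [abs_neg] using hs t ht
  have hE' : ∀ s : ℂ, 1 < s.re → PhiF a b F s = cexp (DS (fun x : SS a b × ℕ => -dP (pr a b) x) LP s) := by
    intro s hs
    have h1 := he s hs _ (bsd_hasProd hF hs)
    have h2 : DS (fun x : SS a b × ℕ => -dP (pr a b) x) LP s = -DS (dP (T := SS a b) (pr a b)) LP s := by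
      unfold DS
      rw [← tsum_neg]
      refine tsum_congr fun x => ?_
      push_cast
      ring
    rw [h2, Complex.exp_neg, ← h1, inv_inv]
  have hAA : ∀ u : ℝ, AA (fun x : SS a b × ℕ => -dP (pr a b) x) LP u = -AA (dP (T := SS a b) (pr a b)) LP u := by
    intro u
    unfold AA
    rw [← tsum_neg]
    refine tsum_congr fun x => ?_
    split_ifs <;> simp
  have key := count_of_many (A := AA (fun x : SS a b × ℕ => -dP (pr a b) x) LP)
    (g := fun n : ℕ => -Real.log (bsdProduct a b n)) (B := B) (c := c) (c' := c') hcc hc0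
    (fun u hu => ?_) (fun lam δ' hl hl1 hδ' => ?_) hδ C
  · refine key.mono fun N hN => hN.trans ?_
    have : cnt {n : ℕ | C * (n : ℝ) ^ c < -Real.log (bsdProduct a b n)} N ≤
        cnt {n : ℕ | Real.log (bsdProduct a b n) < -(C * (n : ℝ) ^ c)} N := by
      refine cnt_mono fun n _ _ hn => ?_
      have hn' : C * (n : ℝ) ^ c < -Real.log (bsdProduct a b n) := hn
      show Real.log (bsdProduct a b n) < -(C * (n : ℝ) ^ c)
      linarith
    exact_mod_cast this
  · have h1 := (abs_le.1 (hB u hu)).1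
    rw [P_floor, hAA]
    linarith
  · refine many (hL0 a b) hs' (F := PhiF a b F) (fun s _ => (hΦ.analyticAt s).meromorphicAt)
      hE' (c := c') (by linarith) ?_ ⟨ρ - 1, ?_, ?_⟩ ?_ hl hl1 hδ'
    · intro x hx
      obtain ⟨k, hk1, hk⟩ := hord (x : ℂ)
      rw [hk]
      have h1 : PhiF a b F x ≠ 0 := by
        unfold PhiF
        refine mul_ne_zero ?_ (small_ne_zero_real (by linarith))
        have := hreal (1 + x) (by linarith)
        push_cast at this
        exact this
      rw [← (hΦ.analyticAt (x : ℂ)).analyticOrderAt_eq_zero] at h1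
      rw [h1] at hk1
      have h2 : k = 0 := by exact_mod_cast hk1.symm
      rw [h2]
      simp
    · rw [Complex.sub_re, Complex.one_re, hc']
      linarith
    · obtain ⟨k, hk1, hk⟩ := hord (ρ - 1)
      rw [hk]
      intro h
      have h1 : (k : ℤ) = 0 := by exact_mod_cast h
      have h2 : k = 0 := by omega
      rw [h2, Nat.cast_zero, (hΦ.analyticAt (ρ - 1)).analyticOrderAt_eq_zero] at hk1
      refine hk1 ?_
      unfold PhiF
      rw [add_sub_cancel, h0, zero_mul]
    · intro b' hb' hbs x hx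
      have h5 := AA_l2 hg hF (θ := b') (by linarith) (fun s hs hs0 => ?_) hx
      · refine h5.congr (Eventually.of_forall fun u => ?_)
        simp only
        rw [hAA, neg_sq]
      · have h1 := hbs (s - 1) (by
          obtain ⟨k, hk1, hk⟩ := hord (s - 1)
          rw [hk]
          intro h
          have h1 : (k : ℤ) = 0 := by exact_mod_cast h
          have h2 : k = 0 := by omega
          rw [h2, Nat.cast_zero, (hΦ.analyticAt (s - 1)).analyticOrderAt_eq_zero] at hk1
          refine hk1 ?_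
          unfold PhiF
          rw [add_sub_cancel, hs0, zero_mul])
        rw [Complex.sub_re, Complex.one_re] at h1
        linarith

end Pool.Agent.H424.BX
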