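import Pool.Agent.H424.BX.Curve
import Pool.Agent.TH949.TX.BSDE
import Pool.Agent.TH270.MS.EQ3
import Pool.Agent.TH270.MS.GrowthF

/-! The asymptotic of Birch and Swinnerton-Dyer under the Riemann hypothesis, outside sets of finite
logarithmic measure. -/

set_option autoImplicit false

open Complex MeasureTheory Set Filter Topology Classical
open Pool.Agent.TH949.TX
open Pool.Agent.W263.BSD hiding TG
open Pool.Agent.TH270.MS.EQ (dev devStar dev_eq devStar_eq curve_law corr_lim)

namespace Pool.Agent.H424.BX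

variable {a b : ℤ} {F : ℂ → ℂ}

/-- the hypotheses which hold for every elliptic curve over `ℚ` -/
structure Hy (a b : ℤ) (F : ℂ → ℂ) : Prop where
  disc : 4 * a ^ 3 + 27 * b ^ 2 ≠ 0
  rs : Tendsto (rsSum a b) atTop (𝓝 0)
  gr : Gr a b F
  gl : ∃ (C : ℝ) (κ : ℕ), ∀ s : ℂ, 1 - 1 / 8 < s.re → ‖F s‖ ≤ C * (1 + ‖s‖) ^ κ
  lser : IsLSeries a b F

/-- the Riemann hypothesis -/
def NZ (F : ℂ → ℂ) : Prop := ∀ s : ℂ, 1 < s.re → F s ≠ 0

/-- the leading coefficient is positive under the Riemann hypothesis -/
theorem lead_eq (H : Hy a b F) (hz : NZ F) {m : ℕ} (hm : analyticOrderAt F 1 = m) :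
    0 < TG F m ∧ iteratedDeriv m F 1 / (m.factorial : ℂ) =
      ((√2 * Real.exp (m * Real.eulerMascheroniConstant) / TG F m : ℝ) : ℂ) := by
  obtain ⟨κ, h1, h2⟩ := Pool.Agent.TH942.RZ.curve_riesz H.disc H.rs H.gr H.lser hm hz one_pos
  set r : ℝ := √2 * Real.exp (-(m * (deriv Real.Gamma (1 + 1) / Real.Gamma (1 + 1)))) with hr
  have hr0 : 0 < r := by rw [hr]; positivity
  have hE := Real.exp_pos κ
  have h3 : iteratedDeriv m F 1 / (m.factorial : ℂ) = ((r / Real.exp κ : ℝ) : ℂ) := by
    rw [Complex.ofReal_div, ← h2]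
    have : ((Real.exp κ : ℝ) : ℂ) ≠ 0 := by exact_mod_cast hE.ne'
    field_simp
  have h4 : ‖iteratedDeriv m F 1‖ / (m.factorial : ℝ) = r / Real.exp κ := by
    have := congrArg norm h3
    rw [norm_div, Complex.norm_natCast, Complex.norm_real, Real.norm_eq_abs, abs_of_pos (by positivity)] at this
    exact this
  have hf0 : (0 : ℝ) < (m.factorial : ℝ) := by exact_mod_cast m.factorial_pos
  have hN : 0 < ‖iteratedDeriv m F 1‖ := by
    have h5 : 0 < ‖iteratedDeriv m F 1‖ / (m.factorial : ℝ) := by rw [h4]; positivity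
    rw [div_pos_iff] at h5
    rcases h5 with h5 | h5
    · exact h5.1
    · linarith [h5.2]
  have hT : 0 < TG F m := by unfold Pool.Agent.TH949.TX.TG; positivity
  refine ⟨hT, ?_⟩
  rw [h3, ← h4]
  congr 1
  unfold Pool.Agent.TH949.TX.TG
  have h5 : (0 : ℝ) < √2 := by positivity
  have h6 := Real.exp_pos (m * Real.eulerMascheroniConstant)
  field_simp

/-- **The asymptotic outside a set of finite logarithmic measure.** -/
theorem rh_asy (H : Hy a b F) (hz : NZ F) {m : ℕ} (hm : analyticOrderAt F 1 = m) {ε : ℝ} (hε : 0 < ε) :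
    Summable fun n : ℕ => if ε < |Real.log (bsdProduct a b n) - m * Real.log (Real.log n) - Real.log (TG F m)|
      then (1 : ℝ) / n else 0 := by
  obtain ⟨hT, hlead⟩ := lead_eq H hz hm
  obtain ⟨C₀, κ, hg⟩ := H.gl
  have t := curve_law H.disc H.lser H.rs (by norm_num : (0 : ℝ) < 1 / 8) hg m hT
  have t1 : ((∀ s : ℂ, 1 < s.re → F s ≠ 0) ∧ ∃ m' : ℕ, (m : ℝ) = m' ∧ analyticOrderAt F 1 = m' ∧
      iteratedDeriv m' F 1 / (m'.factorial : ℂ) =
        ((√2 * Real.exp (m' * Real.eulerMascheroniConstant) / TG F m : ℝ) : ℂ)) ↔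
      IntegrableOn (fun x : ℝ => devStar a b m (TG F m) x ^ 2 / x) (Ioi (Real.exp 1)) := t.out 0 3
  have h1 := t1.1 ⟨hz, m, rfl, hm, hlead⟩
  -- the difference of the two deviations
  have r2 : Tendsto (fun x => dev a b m (TG F m) x - devStar a b m (TG F m) x) atTop (𝓝 0) := by
    have h1 := (corr_lim H.disc H.rs).const_sub (-(Real.log 2 / 2))
    rw [sub_self] at h1
    refine h1.congr' ?_
    filter_upwards [eventually_ge_atTop (Real.exp 1)] with x hx
    rw [dev_eq hT hx, devStar_eq hT hx]
    ring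
  obtain ⟨x₀, hx₀⟩ := (Metric.tendsto_atTop.1 r2) (ε / 4) (by positivity)
  have hll := (loglog_incr.const_mul (m : ℝ))
  rw [mul_zero] at hll
  obtain ⟨n₁, hn₁⟩ := (Metric.tendsto_atTop.1 hll) (ε / 4) (by positivity)
  set G : ℝ → ℝ := (Ioi (Real.exp 1)).indicator fun x : ℝ => devStar a b m (TG F m) x ^ 2 / x with hG
  have hGi : Integrable G := (integrable_indicator_iff measurableSet_Ioi).2 h1
  have hG0 : ∀ x, 0 ≤ G x := fun x => by
    rw [hG]
    refine indicator_nonneg (fun y hy => ?_) x
    have : 0 < y := (Real.exp_pos 1).trans hy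
    positivity
  set A : ℕ → ℝ := fun n => ∫ x in (n : ℝ)..((n + 1 : ℕ) : ℝ), G x with hA
  have hA0 : ∀ n, 0 ≤ A n := fun n => by
    refine intervalIntegral.integral_nonneg ?_ fun u _ => hG0 u
    push_cast
    linarith
  have hAs : Summable A := by
    refine summable_of_sum_range_le (c := ∫ x, G x) hA0 fun n => ?_
    have h2 : ∑ i ∈ Finset.range n, A i = ∫ x in ((0 : ℕ) : ℝ)..(n : ℝ), G x :=
      intervalIntegral.sum_integral_adjacent_intervals (a := fun n : ℕ => (n : ℝ))
        fun k _ => hGi.intervalIntegrable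
    rw [h2, intervalIntegral.integral_of_le (by simp)]
    exact setIntegral_le_integral hGi (Eventually.of_forall hG0)
  refine Summable.of_norm_bounded_eventually_nat (g := fun n => 8 / ε ^ 2 * A n) (hAs.mul_left _) ?_
  filter_upwards [eventually_ge_atTop (max n₁ (max 3 ⌈x₀⌉₊))] with n hn
  have hn1 : n₁ ≤ n := (le_max_left _ _).trans hn
  have hn3 : 3 ≤ n := ((le_max_left _ _).trans (le_max_right _ _)).trans hn
  have hnx : x₀ ≤ n := by
    have : ⌈x₀⌉₊ ≤ n := ((le_max_right _ _).trans (le_max_right _ _)).trans hn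
    exact (Nat.le_ceil x₀).trans (by exact_mod_cast this)
  have hnr : (3 : ℝ) ≤ n := by exact_mod_cast hn3
  split_ifs with hS
  swap
  · rw [norm_zero]
    have := hA0 n
    positivity
  rw [Real.norm_eq_abs, abs_of_nonneg (by positivity)]
  have he : Real.exp 1 < 3 := by
    have := Real.exp_one_lt_d9
    linarith
  -- the lower bound on the interval
  have hlow : ∀ x ∈ Ioo (n : ℝ) ((n + 1 : ℕ) : ℝ), (ε / 2) ^ 2 / (2 * n) ≤ G x := by
    intro x hx
    have hx1 : (n : ℝ) ≤ x := hx.1.le
    have hx2 : x < (n : ℝ) + 1 := by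
      have := hx.2
      push_cast at this
      exact this
    have hxe : Real.exp 1 < x := by linarith
    rw [hG, indicator_of_mem (show x ∈ Ioi (Real.exp 1) from hxe)]
    have k1 := hx₀ x (hnx.trans hx1)
    rw [Real.dist_eq, sub_zero] at k1
    have hfl : ⌊x⌋₊ = n := by
      rw [Nat.floor_eq_iff (by linarith)]
      exact ⟨hx1, hx2⟩
    have k2 : bsdProduct a b x = bsdProduct a b n := by
      rw [← P_floor x, hfl]
    have k3 : dev a b m (TG F m) x = (Real.log (bsdProduct a b n) - m * Real.log (Real.log n) -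
        Real.log (TG F m)) - m * (Real.log (Real.log x) - Real.log (Real.log n)) := by
      rw [dev_eq hT hxe.le, k2]
      ring
    have k4 := hn₁ n hn1
    rw [Real.dist_eq, sub_zero] at k4
    have hl0 : 0 < Real.log n := Real.log_pos (by linarith)
    have k5 : 0 ≤ Real.log (Real.log x) - Real.log (Real.log n) := by
      have := Real.log_le_log hl0 (Real.log_le_log (by linarith) hx1)
      linarith
    have k6 : Real.log (Real.log x) - Real.log (Real.log n) ≤
        Real.log (Real.log ((n : ℝ) + 1)) - Real.log (Real.log n) := by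
      have := Real.log_le_log (Real.log_pos (by linarith)) (Real.log_le_log (by linarith) hx2.le)
      linarith
    have hm0 : (0 : ℝ) ≤ m := Nat.cast_nonneg m
    have k7 : |m * (Real.log (Real.log x) - Real.log (Real.log n))| ≤ ε / 4 := by
      rw [abs_of_nonneg (mul_nonneg hm0 k5)]
      have k8 := mul_le_mul_of_nonneg_left k6 hm0
      have k9 := (le_abs_self _).trans k4.le
      linarith
    have k10 : ε / 2 ≤ |devStar a b m (TG F m) x| := by
      have e1 := abs_sub_abs_le_abs_sub (Real.log (bsdProduct a b n) - m * Real.log (Real.log n) -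
        Real.log (TG F m)) (m * (Real.log (Real.log x) - Real.log (Real.log n)))
      rw [← k3] at e1
      have e2 := abs_sub_abs_le_abs_sub (dev a b m (TG F m) x) (devStar a b m (TG F m) x)
      linarith
    have k11 : (ε / 2) ^ 2 ≤ devStar a b m (TG F m) x ^ 2 := by
      rw [← sq_abs (devStar a b m (TG F m) x)]
      exact pow_le_pow_left₀ (by positivity) k10 2
    refine div_le_div₀ (by positivity) k11 (by linarith) ?_
    linarith
  have h3 : (ε / 2) ^ 2 / (2 * n) ≤ A n := by
    have hle : (n : ℝ) ≤ ((n + 1 : ℕ) : ℝ) := by push_cast; linarith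
    have h4 := intervalIntegral.integral_mono_on_of_le_Ioo hle (by simp) hGi.intervalIntegrable hlow
      (μ := volume)
    rw [intervalIntegral.integral_const, smul_eq_mul] at h4
    push_cast at h4
    rw [add_sub_cancel_left, one_mul] at h4
    have h5 : A n = ∫ x in (n : ℝ)..((n : ℝ) + 1), G x := by
      rw [hA]
      push_cast
      rfl
    rw [h5]
    exact h4
  calc (1 : ℝ) / n = 8 / ε ^ 2 * ((ε / 2) ^ 2 / (2 * n)) := by
        have : (n : ℝ) ≠ 0 := by positivity
        field_simp
        norm_num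
    _ ≤ _ := by gcongr

/-- the order of magnitude outside a set of finite logarithmic measure -/
theorem rh_ord (H : Hy a b F) (hz : NZ F) {m : ℕ} (hm : analyticOrderAt F 1 = m) {ε : ℝ} (hε : 0 < ε) :
    Summable fun n : ℕ => if ε * Real.log (Real.log n) <
      |Real.log (bsdProduct a b n) - m * Real.log (Real.log n)| then (1 : ℝ) / n else 0 := by
  refine Summable.of_norm_bounded_eventually_nat (rh_asy H hz hm one_pos) ?_
  have h1 : Tendsto (fun n : ℕ => Real.log (Real.log n)) atTop atTop :=
    (Real.tendsto_log_atTop.comp Real.tendsto_log_atTop).comp tendsto_natCast_atTop_atTop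
  filter_upwards [h1.eventually (eventually_ge_atTop ((1 + |Real.log (TG F m)|) / ε))] with n hn
  rw [div_le_iff₀ hε] at hn
  split_ifs with h2 h3 h3
  · rw [Real.norm_eq_abs, abs_of_nonneg (by positivity)]
  · exfalso
    apply h3
    have e1 := abs_sub_abs_le_abs_sub (Real.log (bsdProduct a b n) - m * Real.log (Real.log n))
      (Real.log (TG F m))
    linarith
  · rw [norm_zero]
    positivity
  · rw [norm_zero]

/-- the sum of the `1/n` over the elements `n ≤ N` of a set -/
noncomputable def lsum (R : Set ℕ) (N : ℕ) : ℝ := ∑ n ∈ (Finset.Icc 1 N).filter (· ∈ R), (1 : ℝ) / n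

/-- a set of positive upper logarithmic density meets the complement of a set of finite logarithmic measure -/
theorem inter_unbounded {S : ℕ → Prop} {R : Set ℕ} (hS : Summable fun n : ℕ => if S n then (1 : ℝ) / n else 0)
    {η : ℝ} (hη : 0 < η) (hR : ∃ᶠ N : ℕ in atTop, η * Real.log N ≤ lsum R N) (n₀ : ℕ) :
    ∃ n : ℕ, n₀ ≤ n ∧ n ∈ R ∧ ¬ S n := by
  by_contra hcon
  push Not at hcon
  set K : ℝ := (∑' n : ℕ, if S n then (1 : ℝ) / n else 0) + ∑ n ∈ Finset.range n₀, (1 : ℝ) / n with hK
  have h1 : ∀ N : ℕ, lsum R N ≤ K := by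
    intro N
    have e1 : lsum R N ≤ ∑ n ∈ Finset.Icc 1 N, ((if S n then (1 : ℝ) / n else 0) +
        if n ∈ Finset.range n₀ then (1 : ℝ) / n else 0) := by
      unfold lsum
      rw [Finset.sum_filter]
      refine Finset.sum_le_sum fun n _ => ?_
      have hn0 : (0 : ℝ) ≤ 1 / n := by positivity
      by_cases hR' : n ∈ R
      · rw [if_pos hR']
        by_cases hn : n₀ ≤ n
        · rw [if_pos (hcon n hn hR')]
          have : 0 ≤ (if n ∈ Finset.range n₀ then (1 : ℝ) / n else 0) := by positivity
          linarith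
        · have hn' : n ∈ Finset.range n₀ := Finset.mem_range.2 (by omega)
          rw [if_pos hn']
          have : 0 ≤ (if S n then (1 : ℝ) / n else 0) := by positivity
          linarith
      · rw [if_neg hR']
        positivity
    refine e1.trans ?_
    rw [Finset.sum_add_distrib, hK]
    refine add_le_add (hS.sum_le_tsum _ fun n _ => by positivity) ?_
    rw [← Finset.sum_filter]
    refine Finset.sum_le_sum_of_subset_of_nonneg (fun n hn => (Finset.mem_filter.1 hn).2) fun n _ _ => by
      positivity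
  have h2 : Tendsto (fun N : ℕ => η * Real.log N) atTop atTop :=
    (Real.tendsto_log_atTop.comp tendsto_natCast_atTop_atTop).const_mul_atTop hη
  obtain ⟨N, hN1, hN2⟩ := (hR.and_eventually (h2.eventually (eventually_gt_atTop K))).exists
  have := h1 N
  linarith

/-- the complement of a set of finite logarithmic measure has logarithmic density one -/
theorem lsum_compl {S : ℕ → Prop} (hS : Summable fun n : ℕ => if S n then (1 : ℝ) / n else 0) {R : Set ℕ}
    (hR : ∀ᶠ n : ℕ in atTop, ¬ S n → n ∈ R) : ∀ᶠ N : ℕ in atTop, 1 / 2 * Real.log N ≤ lsum R N := by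
  obtain ⟨n₀, hn₀⟩ := eventually_atTop.1 hR
  set K : ℝ := (∑' n : ℕ, if S n then (1 : ℝ) / n else 0) + ∑ n ∈ Finset.range n₀, (1 : ℝ) / n with hK
  have h2 : Tendsto (fun N : ℕ => 1 / 2 * Real.log N) atTop atTop :=
    (Real.tendsto_log_atTop.comp tendsto_natCast_atTop_atTop).const_mul_atTop (by norm_num)
  filter_upwards [h2.eventually (eventually_ge_atTop K), eventually_ge_atTop 1] with N hN hN1
  have h3 : ∑ n ∈ Finset.Icc 1 N, (1 : ℝ) / n ≤ lsum R N + K := by
    have e1 : ∑ n ∈ Finset.Icc 1 N, (1 : ℝ) / n ≤ ∑ n ∈ Finset.Icc 1 N, ((if n ∈ R then (1 : ℝ) / n else 0) +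
        ((if S n then (1 : ℝ) / n else 0) + if n ∈ Finset.range n₀ then (1 : ℝ) / n else 0)) := by
      refine Finset.sum_le_sum fun n _ => ?_
      have hn0 : (0 : ℝ) ≤ 1 / n := by positivity
      have p1 : 0 ≤ (if n ∈ R then (1 : ℝ) / n else 0) := by positivity
      have p2 : 0 ≤ (if S n then (1 : ℝ) / n else 0) := by positivity
      have p3 : 0 ≤ (if n ∈ Finset.range n₀ then (1 : ℝ) / n else 0) := by positivity
      by_cases hS' : S n
      · rw [if_pos hS'] at p2 ⊢
        linarith
      · by_cases hn : n₀ ≤ n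
        · rw [if_pos (hn₀ n hn hS')] at p1 ⊢
          linarith
        · have hn' : n ∈ Finset.range n₀ := Finset.mem_range.2 (by omega)
          rw [if_pos hn'] at p3 ⊢
          linarith
    refine e1.trans ?_
    rw [Finset.sum_add_distrib, Finset.sum_add_distrib, hK]
    unfold lsum
    rw [Finset.sum_filter]
    refine add_le_add le_rfl (add_le_add (hS.sum_le_tsum _ fun n _ => by positivity) ?_)
    rw [← Finset.sum_filter]
    refine Finset.sum_le_sum_of_subset_of_nonneg (fun n hn => (Finset.mem_filter.1 hn).2) fun n _ _ => by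
      positivity
  have h4 : Real.log N ≤ ∑ n ∈ Finset.Icc 1 N, (1 : ℝ) / n := by
    have h5 := log_add_one_le_harmonic N
    have h6 : (harmonic N : ℝ) = ∑ n ∈ Finset.Icc 1 N, (1 : ℝ) / n := by
      rw [harmonic_eq_sum_Icc]
      push_cast
      refine Finset.sum_congr rfl fun n _ => ?_
      rw [one_div]
    rw [← h6]
    refine le_trans ?_ h5
    have : (1 : ℝ) ≤ N := by exact_mod_cast hN1
    exact Real.log_le_log (by linarith) (by push_cast; linarith)
  linarith

end Pool.Agent.H424.BX
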