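import Mathlib
import Pool.Agent.TH949.TX.SMain

/-! The summatory function is large on sets of points which are not small, at every scale. -/

set_option autoImplicit false

open Complex MeasureTheory Set Filter Topology
open Pool.Agent.W189.TP (DS DS_diff DS_norm_le summ_mono)
open Pool.Agent.TH949.TX

namespace Pool.Agent.H424.BX

/-- the weight -/
noncomputable def ww (σ κ Y u : ℝ) : ℝ := Real.exp (-(σ * u)) * gk κ (u - Y)

theorem ww_nonneg (σ κ Y u : ℝ) : 0 ≤ ww σ κ Y u := mul_nonneg (Real.exp_pos _).le (gk_nonneg _ _)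

theorem ww_meas (σ κ Y : ℝ) : Measurable (ww σ κ Y) := by
  have hgm : Measurable fun u : ℝ => gk κ (u - Y) := by
    unfold gk
    fun_prop
  have hem : Measurable fun u : ℝ => Real.exp (-(σ * u)) := by fun_prop
  exact hem.mul hgm

section

variable {ι : Type*} [Countable ι] {d L : ι → ℝ}

/-- integrability of the summatory function against the weight -/
theorem AA_int (hL : ∀ i, 0 ≤ L i) (h2 : Summable fun i => |d i| * Real.exp (-(2 * L i))) {σ κ Y : ℝ}
    (hσ : 0 ≤ σ) (hκ : 0 < κ) : Integrable fun u : ℝ => AA d L u * ww σ κ Y u := by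
  obtain ⟨hAm, hA0, hAb⟩ := t_AA hL h2
  set B : ℝ := ∑' i, |d i| * Real.exp (-(2 * L i)) with hB
  have hB0 : 0 ≤ B := tsum_nonneg fun i => by positivity
  have h4 : Integrable fun u : ℝ => B * (Real.exp (2 * u) * gk κ (u - Y)) := by
    refine Integrable.const_mul ?_ _
    have h5 : (fun u : ℝ => Real.exp (2 * u) * gk κ (u - Y)) = fun u =>
        Real.exp (2 * Y + 4 * κ) * gk κ (u - (Y + 4 * κ)) := by
      funext u
      unfold gk
      have e5 : Real.exp (2 * u) * ((Real.sqrt (4 * Real.pi * κ))⁻¹ *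
          Real.exp (-((u - Y) ^ 2 / (4 * κ)))) = (Real.sqrt (4 * Real.pi * κ))⁻¹ *
          (Real.exp (2 * u) * Real.exp (-((u - Y) ^ 2 / (4 * κ)))) := by ring
      have e6 : Real.exp (2 * Y + 4 * κ) * ((Real.sqrt (4 * Real.pi * κ))⁻¹ *
          Real.exp (-((u - (Y + 4 * κ)) ^ 2 / (4 * κ)))) = (Real.sqrt (4 * Real.pi * κ))⁻¹ *
          (Real.exp (2 * Y + 4 * κ) * Real.exp (-((u - (Y + 4 * κ)) ^ 2 / (4 * κ)))) := by ring
      rw [e5, e6, ← Real.exp_add, ← Real.exp_add]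
      congr 2
      field_simp
      ring
    rw [h5]
    exact (gk_integral hκ _).1.const_mul _
  refine h4.mono' (hAm.mul (ww_meas σ κ Y)).aestronglyMeasurable (Eventually.of_forall fun u => ?_)
  rw [Real.norm_eq_abs, abs_mul, abs_of_nonneg (ww_nonneg _ _ _ u)]
  rcases lt_or_ge u 0 with hu | hu
  · rw [hA0 u hu, abs_zero, zero_mul]
    have := gk_nonneg κ (u - Y)
    positivity
  · have e7 : ww σ κ Y u ≤ gk κ (u - Y) := by
      unfold ww
      have : Real.exp (-(σ * u)) ≤ 1 := Real.exp_le_one_iff.2 (by nlinarith)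
      have h8 := gk_nonneg κ (u - Y)
      nlinarith
    calc |AA d L u| * ww σ κ Y u ≤ (B * Real.exp (2 * u)) * gk κ (u - Y) :=
          mul_le_mul (hAb u) e7 (ww_nonneg _ _ _ u) (by positivity)
      _ = _ := by ring

theorem AA_pos_int (hL : ∀ i, 0 ≤ L i) (h2 : Summable fun i => |d i| * Real.exp (-(2 * L i))) {σ κ Y : ℝ}
    (hσ : 0 ≤ σ) (hκ : 0 < κ) : Integrable fun u : ℝ => max 0 (AA d L u) * ww σ κ Y u := by
  obtain ⟨hAm, -, -⟩ := t_AA hL h2
  refine (AA_int hL h2 hσ hκ (Y := Y)).abs.mono'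
    ((measurable_const.max hAm).mul (ww_meas σ κ Y)).aestronglyMeasurable (Eventually.of_forall fun u => ?_)
  show |max 0 (AA d L u) * ww σ κ Y u| ≤ |AA d L u * ww σ κ Y u|
  rw [abs_mul (max 0 (AA d L u)), abs_mul (AA d L u), abs_of_nonneg (ww_nonneg _ _ _ u),
    abs_of_nonneg (le_max_left _ _)]
  exact mul_le_mul_of_nonneg_right (max_le (abs_nonneg _) (le_abs_self _)) (ww_nonneg _ _ _ u)

/-- the far part -/
theorem AA_far (hL : ∀ i, 0 ≤ L i) (h2 : Summable fun i => |d i| * Real.exp (-(2 * L i))) {lam η σ Y u : ℝ}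
    (hlam : 0 < lam) (hlam1 : lam ≤ 1) (hη : η = lam ^ 2 / 100) (hσ : 0 ≤ σ) (hY : 0 < Y)
    (hY1 : 1 ≤ 4 * Real.pi * (η * Y)) (hu : 0 ≤ u) (hf : lam * Y < |u - Y|) :
    |AA d L u| * ww σ (η * Y) Y u ≤ (∑' i, |d i| * Real.exp (-(2 * L i))) * Real.exp (-(2 * u)) := by
  obtain ⟨-, -, hAb⟩ := t_AA hL h2
  set B : ℝ := ∑' i, |d i| * Real.exp (-(2 * L i)) with hB
  have hB0 : 0 ≤ B := tsum_nonneg fun i => by positivity
  have e1 := far4 hlam hlam1 hη hY hσ hu hf hY1
  calc |AA d L u| * ww σ (η * Y) Y u ≤ (B * Real.exp (2 * u)) * (Real.exp (-(4 * u)) * Real.exp (-Y)) :=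
        mul_le_mul (hAb u) e1 (ww_nonneg _ _ _ u) (by positivity)
    _ ≤ (B * Real.exp (2 * u)) * (Real.exp (-(4 * u)) * 1) := by
        have : Real.exp (-Y) ≤ 1 := Real.exp_le_one_iff.2 (by linarith)
        gcongr
    _ = B * Real.exp (-(2 * u)) := by
        rw [mul_one, mul_assoc, ← Real.exp_add]
        congr 2
        ring

/-- an upper bound for the Gaussian average of the Dirichlet series by the average of the positive part of the
summatory function -/
theorem JJ_upper2 (hL : ∀ i, 0 ≤ L i)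
    (h2 : Summable fun i => |d i| * Real.exp (-(2 * L i))) {lam η σ Y t0 M ε : ℝ} (hlam : 0 < lam) (hlam1 : lam ≤ 1)
    (hη : η = lam ^ 2 / 100) (hσ : 0 ≤ σ) (hY : 1 ≤ Y) (hY1 : 1 ≤ 4 * Real.pi * (η * Y))
    (hε : -ε ≤ (JA d L (σ : ℂ) (η * Y) Y).re)
    (h : ∫ u : ℝ, max 0 (AA d L u) * ww σ (η * Y) Y u ≤ M) :
    ‖JJ d L ((σ : ℂ) + t0 * I) (η * Y) Y‖ ≤
      (1 + ‖(σ : ℂ) + t0 * I‖ + 1 / η) * (1 + 2 * Y) ^ 2 * (2 * M + ε) +
      4 * (1 + ‖(σ : ℂ) + t0 * I‖ + 1 / η) * (∑' i, |d i| * Real.exp (-(2 * L i))) := by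
  classical
  obtain ⟨hAm, hA0, hAb⟩ := t_AA hL h2
  set B : ℝ := ∑' i, |d i| * Real.exp (-(2 * L i)) with hB
  have hB0 : 0 ≤ B := tsum_nonneg fun i => by positivity
  have hη0 : 0 < η := by rw [hη]; positivity
  have hY0 : 0 < Y := by linarith
  have hκ : 0 < η * Y := by positivity
  set s : ℂ := (σ : ℂ) + t0 * I with hs
  have hsre : s.re = σ := by simp [hs]
  obtain ⟨hint, hle⟩ := t_parts hL h2 (s := s) (by rw [hsre]; exact hσ) hκ Y
  rw [hsre] at hint hle
  set w : ℝ → ℝ := fun u => Real.exp (-(σ * u)) * gk (η * Y) (u - Y) with hw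
  have hww : ∀ u, ww σ (η * Y) Y u = w u := fun u => rfl
  set q : ℝ → ℝ := fun u => ‖1 - s * u - (u : ℂ) * (u - Y) / (2 * ((η * Y : ℝ) : ℂ))‖ with hq
  set K : ℝ := 1 + ‖s‖ + 1 / η with hK
  have hK1 : 1 ≤ K := by
    rw [hK]
    have h3 : 0 ≤ 1 / η := by positivity
    have h4 := norm_nonneg s
    linarith
  have hw0 : ∀ u, 0 ≤ w u := fun u => mul_nonneg (Real.exp_pos _).le (gk_nonneg _ _)
  -- the polynomial factor
  have hqb : ∀ u : ℝ, 0 ≤ u → q u ≤ K * (1 + u) ^ 2 := by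
    intro u hu
    have e1 : q u ≤ 1 + ‖s‖ * u + u * (u + Y) / (2 * (η * Y)) := by
      rw [hq]
      simp only
      refine (norm_sub_le _ _).trans (add_le_add ((norm_sub_le _ _).trans ?_) ?_)
      · rw [norm_one, norm_mul, Complex.norm_real, Real.norm_of_nonneg hu]
      · rw [norm_div, norm_mul, norm_mul, Complex.norm_real, Real.norm_of_nonneg hu, Complex.norm_real,
          Real.norm_of_nonneg hκ.le]
        have e2 : ‖(u : ℂ) - (Y : ℂ)‖ ≤ u + Y := by
          refine (norm_sub_le _ _).trans ?_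
          rw [Complex.norm_real, Complex.norm_real, Real.norm_of_nonneg hu, Real.norm_of_nonneg hY0.le]
        have e3 : ‖(2 : ℂ)‖ = 2 := by simp
        rw [e3]
        gcongr
    have e2 : u * (u + Y) / (2 * (η * Y)) ≤ 1 / η * (1 + u) ^ 2 := by
      rw [div_le_iff₀ (by positivity)]
      have e3 : 1 / η * (1 + u) ^ 2 * (2 * (η * Y)) = 2 * Y * (1 + u) ^ 2 := by
        field_simp
      rw [e3]
      nlinarith [mul_nonneg hu hY0.le, mul_nonneg hu hu, mul_nonneg (mul_nonneg hu hu) hY0.le,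
        mul_nonneg (mul_nonneg hu hu) (sub_nonneg.2 hY)]
    have e4 : 1 + ‖s‖ * u ≤ (1 + ‖s‖) * (1 + u) ^ 2 := by
      have := norm_nonneg s
      nlinarith [mul_nonneg this hu, mul_nonneg hu hu, mul_nonneg this (mul_nonneg hu hu)]
    rw [hK, add_mul]
    linarith
  -- integrability
  have hAwi : Integrable fun u : ℝ => AA d L u * w u := AA_int hL h2 hσ hκ
  have hJA : (JA d L (σ : ℂ) (η * Y) Y).re = ∫ u : ℝ, AA d L u * w u := by
    unfold JA
    have e1 : ∀ u : ℝ, (AA d L u : ℂ) * cexp (-((σ : ℂ) * u)) * (gk (η * Y) (u - Y) : ℂ) =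
        ((AA d L u * w u : ℝ) : ℂ) := by
      intro u
      rw [hw]
      push_cast
      ring
    rw [integral_congr_ae (Eventually.of_forall e1), integral_complex_ofReal, Complex.ofReal_re]
  -- the far part
  have hfar : ∀ u : ℝ, 0 ≤ u → lam * Y < |u - Y| → |AA d L u| * w u ≤ B * Real.exp (-(2 * u)) :=
    fun u hu hf => AA_far hL h2 hlam hlam1 hη hσ hY0 hY1 hu hf
  have hposi : Integrable fun u : ℝ => max 0 (AA d L u) * w u := AA_pos_int hL h2 hσ hκ
  have hposv : ∫ u, max 0 (AA d L u) * w u ≤ M := h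
  have habsi : Integrable fun u : ℝ => |AA d L u| * w u := by
    refine hAwi.abs.congr (Eventually.of_forall fun u => ?_)
    show |AA d L u * w u| = |AA d L u| * w u
    rw [abs_mul, abs_of_nonneg (hw0 u)]
  have habsv : ∫ u, |AA d L u| * w u ≤ 2 * M + ε := by
    have e1 : ∀ u : ℝ, |AA d L u| * w u = 2 * (max 0 (AA d L u) * w u) - AA d L u * w u := by
      intro u
      rcases le_or_gt 0 (AA d L u) with h9 | h9
      · rw [abs_of_nonneg h9, max_eq_right h9]
        ring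
      · rw [abs_of_neg h9, max_eq_left h9.le]
        ring
    rw [integral_congr_ae (Eventually.of_forall e1), integral_sub (hposi.const_mul 2) hAwi, integral_const_mul,
      ← hJA]
    linarith
  -- the final bound
  set E2 : ℝ → ℝ := (Ioi (0 : ℝ)).indicator (fun u => 4 * K * (B * Real.exp (-(1 * u)))) with hE2
  have hexpi2 : IntegrableOn (fun u : ℝ => 4 * K * (B * Real.exp (-(1 * u)))) (Ioi 0) := by
    have := ((integrableOn_exp_mul_Ioi (a := -1) (by norm_num) 0).const_mul B).const_mul (4 * K)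
    show Integrable (fun u : ℝ => 4 * K * (B * Real.exp (-(1 * u)))) (volume.restrict (Ioi 0))
    simpa [neg_mul] using this
  have hexpv2 : ∫ u in Ioi (0 : ℝ), 4 * K * (B * Real.exp (-(1 * u))) = 4 * K * B := by
    rw [integral_const_mul, integral_const_mul]
    have := integral_exp_mul_Ioi (a := -1) (by norm_num) 0
    simp only [neg_mul, mul_zero, Real.exp_zero] at this
    rw [this]
    ring
  have hE2i : Integrable E2 := hexpi2.integrable_indicator measurableSet_Ioi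
  have hE2v : ∫ u, E2 u = 4 * K * B := by
    rw [hE2, integral_indicator measurableSet_Ioi, hexpv2]
  have hE20 : ∀ u, 0 ≤ E2 u := fun u => by
    rw [hE2]
    refine indicator_nonneg (fun v _ => by positivity) u
  have hfin : ∀ᵐ u : ℝ, |AA d L u| * w u * q u ≤ K * (1 + 2 * Y) ^ 2 * (|AA d L u| * w u) + E2 u := by
    have h0 : ∀ᵐ u : ℝ, u ≠ 0 := by
      refine (measure_eq_zero_iff_ae_notMem.1 (Real.volume_singleton (a := (0 : ℝ)))).mono fun u hu => ?_
      simpa using hu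
    filter_upwards [h0] with u hu0
    have hAw0 : 0 ≤ |AA d L u| * w u := mul_nonneg (abs_nonneg _) (hw0 u)
    rcases lt_or_gt_of_ne hu0 with hu | hu
    · rw [hA0 u hu, abs_zero, zero_mul, zero_mul, mul_zero, zero_add]
      exact hE20 u
    · by_cases hwin : |u - Y| ≤ lam * Y
      · have e1 : u ≤ 2 * Y := by
          have := (abs_le.1 hwin).2
          nlinarith
        have e2 : q u ≤ K * (1 + 2 * Y) ^ 2 := by
          refine (hqb u hu.le).trans ?_
          have : (1 + u) ^ 2 ≤ (1 + 2 * Y) ^ 2 := by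
            have : 0 ≤ u := hu.le
            gcongr
          exact mul_le_mul_of_nonneg_left this (by linarith)
        have e3 := mul_le_mul_of_nonneg_left e2 hAw0
        have := hE20 u
        linarith
      · push Not at hwin
        have e1 := hfar u hu.le hwin
        have e2 : (1 + u) ^ 2 ≤ 4 * Real.exp u := by
          have h9 := Real.add_one_le_exp (u / 2)
          have h10 : Real.exp u = Real.exp (u / 2) * Real.exp (u / 2) := by
            rw [← Real.exp_add]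
            congr 1
            ring
          rw [h10]
          have : 0 ≤ u := hu.le
          nlinarith
        have e3 : |AA d L u| * w u * q u ≤ B * Real.exp (-(2 * u)) * (K * (4 * Real.exp u)) := by
          refine mul_le_mul e1 ((hqb u hu.le).trans (mul_le_mul_of_nonneg_left e2 (by linarith))) ?_ (by positivity)
          rw [hq]
          exact norm_nonneg _
        have e4 : B * Real.exp (-(2 * u)) * (K * (4 * Real.exp u)) = E2 u := by
          rw [hE2, indicator_of_mem (show u ∈ Ioi (0 : ℝ) from hu)]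
          have : Real.exp (-(1 * u)) = Real.exp (-(2 * u)) * Real.exp u := by
            rw [← Real.exp_add]
            congr 1
            ring
          rw [this]
          ring
        rw [e4] at e3
        have : 0 ≤ K * (1 + 2 * Y) ^ 2 * (|AA d L u| * w u) := by positivity
        linarith
  have hint' : Integrable fun u : ℝ => |AA d L u| * w u * q u := hint
  have e5 := integral_mono_ae hint' ((habsi.const_mul (K * (1 + 2 * Y) ^ 2)).add hE2i) hfin
  have e6 : ∫ u, (K * (1 + 2 * Y) ^ 2 * (|AA d L u| * w u) + E2 u) =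
      K * (1 + 2 * Y) ^ 2 * (∫ u, |AA d L u| * w u) + 4 * K * B := by
    rw [integral_add (habsi.const_mul _) hE2i, integral_const_mul, hE2v]
  refine hle.trans (e5.trans ((le_of_eq e6).trans ?_))
  have e8 : 0 ≤ K * (1 + 2 * Y) ^ 2 := by positivity
  have e9 := mul_le_mul_of_nonneg_left habsv e8
  linarith

/-- the average of the positive part is controlled by the large values in the window -/
theorem pos_split (hL : ∀ i, 0 ≤ L i)
    (h2 : Summable fun i => |d i| * Real.exp (-(2 * L i))) {lam η σ Y c : ℝ} (hlam : 0 < lam) (hlam1 : lam ≤ 1)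
    (hη : η = lam ^ 2 / 100) (hσ : 0 ≤ σ) (hY : 1 ≤ Y) (hY1 : 1 ≤ 4 * Real.pi * (η * Y)) (hc : c ≤ σ) :
    ∫ u : ℝ, max 0 (AA d L u) * ww σ (η * Y) Y u ≤
      1 + (∑' i, |d i| * Real.exp (-(2 * L i))) / 2 +
      ∫ u in {u : ℝ | |u - Y| ≤ lam * Y ∧ Real.exp (c * u) ≤ AA d L u}, |AA d L u| * Real.exp (-(σ * u)) := by
  classical
  obtain ⟨hAm, hA0, hAb⟩ := t_AA hL h2
  set B : ℝ := ∑' i, |d i| * Real.exp (-(2 * L i)) with hB
  have hB0 : 0 ≤ B := tsum_nonneg fun i => by positivity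
  have hη0 : 0 < η := by rw [hη]; positivity
  have hY0 : 0 < Y := by linarith
  have hκ : 0 < η * Y := by positivity
  set U : Set ℝ := {u : ℝ | |u - Y| ≤ lam * Y ∧ Real.exp (c * u) ≤ AA d L u} with hU
  have hUm : MeasurableSet U := by
    refine MeasurableSet.inter (measurableSet_le (show Measurable fun u : ℝ => |u - Y| by fun_prop) measurable_const) ?_
    exact measurableSet_le (show Measurable fun u : ℝ => Real.exp (c * u) by fun_prop) hAm
  have hUb : U ⊆ Icc (Y - lam * Y) (Y + lam * Y) := by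
    rintro u ⟨hu, -⟩
    rw [abs_le] at hu
    constructor <;> linarith
  have hexpi : IntegrableOn (fun u : ℝ => B * Real.exp (-(2 * u))) (Ioi 0) := by
    have := (integrableOn_exp_mul_Ioi (a := -2) (by norm_num) 0).const_mul B
    show Integrable (fun u : ℝ => B * Real.exp (-(2 * u))) (volume.restrict (Ioi 0))
    simpa [neg_mul] using this
  have hexpv : ∫ u in Ioi (0 : ℝ), B * Real.exp (-(2 * u)) = B / 2 := by
    rw [integral_const_mul]
    have := integral_exp_mul_Ioi (a := -2) (by norm_num) 0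
    simp only [neg_mul, mul_zero, Real.exp_zero] at this
    rw [this]
    ring
  set E1 : ℝ → ℝ := (Ioi (0 : ℝ)).indicator (fun u => B * Real.exp (-(2 * u))) with hE1
  have hE1i : Integrable E1 := hexpi.integrable_indicator measurableSet_Ioi
  have hE1v : ∫ u, E1 u = B / 2 := by
    rw [hE1, integral_indicator measurableSet_Ioi, hexpv]
  have hE10 : ∀ u, 0 ≤ E1 u := fun u => by
    rw [hE1]
    refine indicator_nonneg (fun v _ => by positivity) u
  set E3 : ℝ → ℝ := U.indicator (fun u => |AA d L u| * Real.exp (-(σ * u))) with hE3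
  have hE30 : ∀ u, 0 ≤ E3 u := fun u => by
    rw [hE3]
    refine indicator_nonneg (fun v _ => by positivity) u
  have hE3i : Integrable E3 := by
    rw [hE3, integrable_indicator_iff hUm]
    have hfin : volume U < ⊤ := (measure_mono hUb).trans_lt (by simp)
    refine Measure.integrableOn_of_bounded (M := B * Real.exp (2 * (Y + lam * Y)) * Real.exp (σ * |Y - lam * Y|))
      hfin.ne ((hAm.abs.mul (show Measurable fun u : ℝ => Real.exp (-(σ * u)) by fun_prop))).aestronglyMeasurable ?_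
    filter_upwards [ae_restrict_mem hUm] with u hu
    have hu1 := hUb hu
    rw [Real.norm_eq_abs, abs_of_nonneg (by positivity)]
    have e1 : Real.exp (2 * u) ≤ Real.exp (2 * (Y + lam * Y)) := Real.exp_le_exp.2 (by linarith [hu1.2])
    have e2 : Real.exp (-(σ * u)) ≤ Real.exp (σ * |Y - lam * Y|) := by
      refine Real.exp_le_exp.2 ?_
      have e3 : -u ≤ |Y - lam * Y| := by
        have := neg_abs_le (Y - lam * Y)
        linarith [hu1.1]
      nlinarith
    exact mul_le_mul ((hAb u).trans (by gcongr)) e2 (Real.exp_pos _).le (by positivity)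
  have hE3v : ∫ u, E3 u = ∫ u in U, |AA d L u| * Real.exp (-(σ * u)) := by
    rw [hE3, integral_indicator hUm]
  have hgi := gk_integral hκ Y
  have hg1 : ∀ u, gk (η * Y) u ≤ 1 := by
    intro u
    unfold gk
    have hs1 : 1 ≤ Real.sqrt (4 * Real.pi * (η * Y)) := by
      rw [Real.one_le_sqrt]
      exact hY1
    have hinv : (Real.sqrt (4 * Real.pi * (η * Y)))⁻¹ ≤ 1 := inv_le_one_of_one_le₀ hs1
    have h3 : Real.exp (-(u ^ 2 / (4 * (η * Y)))) ≤ 1 := Real.exp_le_one_iff.2 (by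
      have : 0 ≤ u ^ 2 / (4 * (η * Y)) := by positivity
      linarith)
    calc _ ≤ 1 * (1 : ℝ) := mul_le_mul hinv h3 (Real.exp_pos _).le zero_le_one
      _ = 1 := one_mul _
  have hpos : ∀ᵐ u : ℝ, max 0 (AA d L u) * ww σ (η * Y) Y u ≤ (gk (η * Y) (u - Y) + E1 u) + E3 u := by
    have h0 : ∀ᵐ u : ℝ, u ≠ 0 := by
      refine (measure_eq_zero_iff_ae_notMem.1 (Real.volume_singleton (a := (0 : ℝ)))).mono fun u hu => ?_
      simpa using hu
    filter_upwards [h0] with u hu0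
    have h8 := gk_nonneg (η * Y) (u - Y)
    rcases lt_or_gt_of_ne hu0 with hu | hu
    · rw [hA0 u hu, max_self, zero_mul]
      exact add_nonneg (add_nonneg h8 (hE10 u)) (hE30 u)
    · by_cases hwin : |u - Y| ≤ lam * Y
      · by_cases hbig : Real.exp (c * u) ≤ AA d L u
        · have huU : u ∈ U := ⟨hwin, hbig⟩
          have e1 : E3 u = |AA d L u| * Real.exp (-(σ * u)) := by
            rw [hE3, indicator_of_mem huU]
          have e2 : max 0 (AA d L u) ≤ |AA d L u| := max_le (abs_nonneg _) (le_abs_self _)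
          have e3 : ww σ (η * Y) Y u ≤ Real.exp (-(σ * u)) * 1 :=
            mul_le_mul_of_nonneg_left (hg1 _) (Real.exp_pos _).le
          have e4 : max 0 (AA d L u) * ww σ (η * Y) Y u ≤ |AA d L u| * Real.exp (-(σ * u)) := by
            rw [mul_one] at e3
            exact mul_le_mul e2 e3 (ww_nonneg _ _ _ _) (abs_nonneg _)
          have := hE10 u
          linarith
        · push Not at hbig
          have e1 : max 0 (AA d L u) ≤ Real.exp (c * u) := max_le (Real.exp_pos _).le hbig.le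
          have e2 : Real.exp (c * u) * ww σ (η * Y) Y u ≤ gk (η * Y) (u - Y) := by
            unfold ww
            rw [← mul_assoc, ← Real.exp_add]
            have : Real.exp (c * u + -(σ * u)) ≤ 1 := Real.exp_le_one_iff.2 (by nlinarith)
            nlinarith
          have e3 := mul_le_mul_of_nonneg_right e1 (ww_nonneg σ (η * Y) Y u)
          have := hE10 u
          have := hE30 u
          linarith
      · push Not at hwin
        have e1 : max 0 (AA d L u) * ww σ (η * Y) Y u ≤ |AA d L u| * ww σ (η * Y) Y u :=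
          mul_le_mul_of_nonneg_right (max_le (abs_nonneg _) (le_abs_self _)) (ww_nonneg _ _ _ u)
        have e2 := AA_far hL h2 hlam hlam1 hη hσ hY0 hY1 hu.le hwin
        have e3 : E1 u = B * Real.exp (-(2 * u)) := by
          rw [hE1, indicator_of_mem (show u ∈ Ioi (0 : ℝ) from hu)]
        rw [e3]
        have := hE30 u
        linarith
  have h9 := integral_mono_ae (AA_pos_int hL h2 hσ hκ (Y := Y)) ((hgi.1.add hE1i).add hE3i) hpos
  refine h9.trans (le_of_eq ?_)
  have e1 : ∫ u, ((fun u => gk (η * Y) (u - Y)) + E1 + E3) u =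
      (∫ u, ((fun u => gk (η * Y) (u - Y)) + E1) u) + ∫ u, E3 u := integral_add (hgi.1.add hE1i) hE3i
  have e2 : ∫ u, ((fun u => gk (η * Y) (u - Y)) + E1) u = (∫ u, gk (η * Y) (u - Y)) + ∫ u, E1 u :=
    integral_add hgi.1 hE1i
  rw [e1, e2, hgi.2, hE1v, hE3v]

/-- **Large averages.**  If there is a singularity, all real singularities to the right of `c` being poles, the
averages of the positive part of the summatory function are large, at every scale. `b` is the supremum of the real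
parts of the singularities. -/
theorem main_avg (hL : ∀ i, 0 ≤ L i)
    (habs : ∀ t : ℝ, 1 < t → Summable fun i => |d i| * Real.exp (-(t * L i)))
    {F : ℂ → ℂ} (hF : MeromorphicOn F univ) (hE : ∀ s : ℂ, 1 < s.re → F s = cexp (DS d L s))
    {c : ℝ} (hc0 : 0 ≤ c) (hreal : ∀ x : ℝ, c < x → meromorphicOrderAt F (x : ℂ) ≤ 0)
    (hc : ∃ ρ : ℂ, c < ρ.re ∧ meromorphicOrderAt F ρ ≠ 0) :
    ∃ b : ℝ, c < b ∧ b ≤ 1 ∧ (∀ ρ : ℂ, meromorphicOrderAt F ρ ≠ 0 → ρ.re ≤ b) ∧
      ∀ lam : ℝ, 0 < lam → lam ≤ 1 → ∀ e₀ : ℝ, 0 < e₀ → ∀ M : ℝ, 0 ≤ M → ∃ σ : ℝ, b - e₀ ≤ σ ∧ σ < b ∧ c < σ ∧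
        ∀ᶠ Y : ℝ in atTop, M < ∫ u : ℝ, max 0 (AA d L u) * ww σ (lam ^ 2 / 100 * Y) Y u := by
  classical
  have h2' := habs 2 (by norm_num)
  -- the singularities
  set S : Set ℝ := {x | ∃ ρ : ℂ, ρ.re = x ∧ meromorphicOrderAt F ρ ≠ 0} with hS
  have hle1 : ∀ ρ : ℂ, meromorphicOrderAt F ρ ≠ 0 → ρ.re ≤ 1 := by
    intro ρ hρ
    obtain ⟨Z, m, h, hZ1, hZ2, -, -⟩ := t_extract hL habs hF hE (c := min ρ.re 0) (H := |ρ.im| + 1)
      (lt_of_le_of_lt (min_le_right _ _) (by norm_num)) (by positivity)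
    exact (hZ1 ρ (hZ2 ρ (min_le_left _ _) (by linarith) hρ)).2.1
  have hSb : BddAbove S := by
    refine ⟨1, ?_⟩
    rintro x ⟨ρ, rfl, h⟩
    exact hle1 ρ h
  have hSn : S.Nonempty := by
    obtain ⟨ρ, -, h4⟩ := hc
    exact ⟨ρ.re, ρ, rfl, h4⟩
  set b : ℝ := sSup S with hb
  have hb1 : b ≤ 1 := csSup_le hSn (by rintro x ⟨ρ, rfl, h⟩; exact hle1 ρ h)
  have hcb : c < b := by
    obtain ⟨ρ, h3, h5⟩ := hc
    exact h3.trans_le (le_csSup hSb ⟨ρ, rfl, h5⟩)
  refine ⟨b, hcb, hb1, fun ρ hρ => le_csSup hSb ⟨ρ, rfl, hρ⟩, fun lam hlam hlam1 e₀ he₀ M hM => ?_⟩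
  -- small singularities
  obtain ⟨Z0, m0, -, hZ01, hZ02, -, -⟩ := t_extract hL habs hF hE (c := 0) (H := 1) (by norm_num) one_pos
  obtain ⟨g0, hg0, hg01, hg0Z⟩ := exists_gap Z0 (fun ρ => ρ.im ≠ 0) (fun ρ => |ρ.im|)
    (fun ρ _ h => abs_pos.2 h)
  have hgap : ∀ ρ : ℂ, 0 ≤ ρ.re → ρ.im ≠ 0 → meromorphicOrderAt F ρ ≠ 0 → g0 ≤ |ρ.im| := by
    intro ρ h3 h4 h5
    by_cases h6 : |ρ.im| ≤ 1
    · exact hg0Z ρ (hZ02 ρ h3 h6 h5) h4
    · push Not at h6
      linarith
  -- the parameters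
  set η : ℝ := lam ^ 2 / 100 with hη
  have hη0 : 0 < η := by rw [hη]; positivity
  have hη1 : η ≤ 1 / 4 := by
    rw [hη]
    nlinarith
  set V : ℝ := 2 + 2 / η with hV
  have hV0 : 0 < V := by rw [hV]; positivity
  have hV2 : 4 + 3 / η ≤ V ^ 2 := by
    rw [hV]
    have e1 : (2 + 2 / η) ^ 2 = 4 + 8 / η + (2 / η) ^ 2 := by ring
    rw [e1]
    have e2 : 3 / η ≤ 8 / η := by gcongr; norm_num
    have e3 : 0 ≤ (2 / η) ^ 2 := by positivity
    linarith
  set e : ℝ := min (min (η * g0 ^ 2 / 4) ((b - c) / 2)) e₀ with he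
  have he0 : 0 < e := lt_min (lt_min (by positivity) (by linarith)) he₀
  have he1 : e ≤ η * g0 ^ 2 / 4 := (min_le_left _ _).trans (min_le_left _ _)
  have he2 : e ≤ (b - c) / 2 := (min_le_left _ _).trans (min_le_right _ _)
  have he3 : e ≤ e₀ := min_le_right _ _
  set σ : ℝ := b - e with hσ
  have hσc : c < σ := by rw [hσ]; linarith
  have hσ0 : 0 < σ := by linarith
  have hσ1 : σ < 1 := by rw [hσ]; linarith
  refine ⟨σ, by rw [hσ]; linarith, by rw [hσ]; linarith, hσc, ?_⟩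
  set c' : ℝ := (c + σ) / 2 with hc'
  have hc'σ : c' < σ := by rw [hc']; linarith
  have hc'0 : 0 < c' := by
    rw [hc']
    linarith
  have hc'c : c < c' := by
    rw [hc']
    linarith
  set c1 : ℝ := (c' + σ) / 2 with hc1
  have hc1σ : c1 < σ := by rw [hc1]; linarith
  have hc'c1 : c' < c1 := by rw [hc1]; linarith
  -- a singularity to the right of `σ`
  obtain ⟨x1, ⟨ρ1, rfl, hρ1o⟩, hρ1σ⟩ := exists_lt_of_lt_csSup hSn (show σ < sSup S by
    rw [hσ, ← hb]; linarith)
  set r1 : ℝ := min 1 ((ρ1.re - σ) / 2) with hr1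
  have hr10 : 0 < r1 := lt_min one_pos (by linarith)
  set H0 : ℝ := |ρ1.im| + 1 + V with hH0
  have hH00 : 0 < H0 := by rw [hH0]; positivity
  obtain ⟨H, hH0H, hprim⟩ := t_prim hc'c1 (show c1 < 2 by linarith) hH00
  obtain ⟨Z, m, h, hZ1, hZ2, hZ3, hZ4⟩ := t_extract hL habs hF hE (c := c') (H := H) (by linarith) (by linarith)
  have hρ1Z : ρ1 ∈ Z := hZ2 ρ1 (by linarith) (by rw [hH0] at hH0H; linarith) hρ1o
  have hZr : ∀ ρ ∈ Z, c' ≤ ρ.re ∧ ρ.re ≤ 1 := fun ρ hρ => ⟨(hZ1 ρ hρ).1, (hZ1 ρ hρ).2.1⟩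
  obtain ⟨t0, ht1, ht2, hinj⟩ := exists_generic Z hη0 hη1 hσ0.le hσ1.le
    (fun ρ hρ => ⟨by linarith [(hZr ρ hρ).1], (hZr ρ hρ).2⟩) (u := ρ1.im) hr10
  -- the complex base point
  set s1 : ℂ := (σ : ℂ) + t0 * I with hs1
  have hs1r : s1.re = σ := by simp [hs1]
  have hs1i : s1.im = t0 := by simp [hs1]
  have ht0 : |t0| ≤ |ρ1.im| + 1 := by
    have h3 : |t0 - ρ1.im| ≤ 1 := by
      rw [abs_le]
      have : r1 ≤ 1 := min_le_left _ _
      constructor <;> linarith
    have h4 := abs_add_le (t0 - ρ1.im) ρ1.im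
    rw [sub_add_cancel] at h4
    linarith
  obtain ⟨φ, hφ, hlarge⟩ := SZ_exp (Z := Z) (m := m) (η := η) (s := s1) (fun ρ hρ => (hZ1 ρ hρ).2.2.2.2) hinj hρ1Z
    (by
    rw [ex_re, hs1r, hs1i]
    have h3 : (ρ1.im - t0) ^ 2 ≤ r1 ^ 2 := by nlinarith
    have h4 : r1 ^ 2 ≤ (ρ1.re - σ) / 2 := by
      have h5 : r1 ≤ 1 := min_le_left _ _
      have h6 : r1 ≤ (ρ1.re - σ) / 2 := min_le_right _ _
      nlinarith
    have h5 : η * (ρ1.im - t0) ^ 2 ≤ 1 * ((ρ1.re - σ) / 2) :=
      mul_le_mul (by linarith) (h3.trans h4) (by positivity) zero_le_one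
    have h6 : 0 ≤ η * (ρ1.re - σ) ^ 2 := by positivity
    nlinarith)
  -- the logarithm near the real base point
  have hZ1' : ∀ ρ ∈ Z, ρ.re ≤ 1 := fun ρ hρ => (hZr ρ hρ).2
  have hgd : ∀ s : ℂ, 1 < s.re → HasDerivAt (fun s => PL Z m s - DS d L s)
      ((∑ ρ ∈ Z, (m ρ : ℂ) / (s - ρ)) - -ZZ d L s) s := by
    intro s hs
    have h3 : DifferentiableAt ℂ (DS d L) s :=
      (DS_diff hL habs).differentiableAt ((isOpen_lt continuous_const Complex.continuous_re).mem_nhds hs)
    have h4 := h3.hasDerivAt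
    rw [Pool.Agent.TH443.TXExtract.ds_deriv hL habs hs] at h4
    exact (PL_diff hZ1' hs).sub h4
  obtain ⟨k, hk1, hk2⟩ := hprim h (fun s => PL Z m s - DS d L s) hZ3
    (fun s hs => (hgd s hs).differentiableAt) (fun s hs hs2 hsH => by
      rw [(hgd s hs).deriv, hZ4 s hs hs2 hsH]
      ring)
  have hVH0 : V ≤ H0 := by
    rw [hH0]
    have := abs_nonneg ρ1.im
    linarith
  have hJr := JA_real hL habs (x0 := c') (c1 := c1) (σ := σ) (η := η) (V := V) hc'0 hc'c1 hc1σ hσ1 hZr (k := k)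
    (fun s hs => hk1 s (by
      obtain ⟨h3, h4, h5⟩ := Complex.mem_reProdIm.1 hs
      exact Complex.mem_reProdIm.2 ⟨h3, by linarith, by linarith⟩))
    (fun s hs hs2 hsV => hk2 s hs hs2 (hsV.trans hVH0)) hη0 hη1 hV2 hV0 (by
    intro ρ hρ him
    obtain ⟨a1, a2, a3, a4, a5⟩ := hZ1 ρ hρ
    have h5 := hreal ρ.re (by linarith)
    have e1 : ((ρ.re : ℝ) : ℂ) = ρ := Complex.ext (by simp) (by simp [him])
    rw [e1, a4] at h5
    have h6 : m ρ ≤ 0 := by exact_mod_cast h5
    omega) (by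
    intro ρ hρ him
    obtain ⟨a1, a2, a3, a4, a5⟩ := hZ1 ρ hρ
    have ho : meromorphicOrderAt F ρ ≠ 0 := by
      rw [a4]
      exact_mod_cast a5
    have h3 : ρ.re ≤ b := le_csSup hSb ⟨ρ, rfl, ho⟩
    have h4 := hgap ρ (by linarith) him ho
    have h5 : g0 ^ 2 ≤ ρ.im ^ 2 := by
      rw [← sq_abs ρ.im]
      exact pow_le_pow_left₀ hg0.le h4 2
    rw [ex_re]
    simp only [Complex.ofReal_re, Complex.ofReal_im, sub_zero]
    have h6 : ρ.re - σ ≤ e := by rw [hσ]; linarith
    have h7 : -1 ≤ ρ.re - σ := by linarith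
    have h8 : η * g0 ^ 2 ≤ η * ρ.im ^ 2 := mul_le_mul_of_nonneg_left h5 hη0.le
    have h9 : 0 < η * g0 ^ 2 := by positivity
    set x := ρ.re - σ with hx
    rcases le_or_gt 0 x with h10 | h10
    · have h11 : x ^ 2 ≤ x * 1 := by nlinarith
      nlinarith
    · have h11 : x ^ 2 ≤ -x := by nlinarith
      nlinarith) (ε := 1) one_pos
  -- the explicit formula
  have hx1 := explicit hL habs hc'0 hZr hZ3 hZ4 hη0 hη1 hV2 hV0 (s0 := s1) (by rw [hs1r]; exact hc'σ)
    (by rw [hs1r]; exact hσ1) (by rw [hs1i]; rw [hH0] at hH0H; linarith)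
  have hy1 := (tendsto_zero_iff_norm_tendsto_zero.1 hx1).eventually (gt_mem_nhds (show (0 : ℝ) < 1 / 100 by norm_num))
  set B : ℝ := ∑' i, |d i| * Real.exp (-(2 * L i)) with hB
  have hB0 : 0 ≤ B := tsum_nonneg fun i => by positivity
  set K : ℝ := 1 + ‖(σ : ℂ) + t0 * I‖ + 1 / η with hK
  have hK0 : 0 ≤ K := by rw [hK]; positivity
  have hpi : 0 < 4 * Real.pi * η := by positivity
  -- exponential growth wins
  have hgrow : ∀ᶠ Y : ℝ in atTop, K * (1 + 2 * Y) ^ 2 * (2 * M + 1) + 4 * K * B <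
      1 / 2 * Real.exp (Y * φ) - 1 / 100 := by
    have h3 : Tendsto (fun Y : ℝ => Real.exp (φ * Y) / Y ^ 2) atTop atTop := by
      have := tendsto_exp_mul_div_rpow_atTop 2 φ hφ
      refine this.congr fun Y => ?_
      norm_cast
    have h4 := h3.eventually_gt_atTop (2 * (9 * K * (2 * M + 1) + 4 * K * B + 1 / 100))
    filter_upwards [h4, eventually_ge_atTop 1] with Y h5 h6
    have h7 : 0 < Y ^ 2 := by positivity
    rw [lt_div_iff₀ h7] at h5
    have h8 : (1 + 2 * Y) ^ 2 ≤ 9 * Y ^ 2 := by nlinarith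
    have h9 : K * (1 + 2 * Y) ^ 2 * (2 * M + 1) ≤ K * (9 * Y ^ 2) * (2 * M + 1) := by gcongr
    have h10 : 1 ≤ Y ^ 2 := by nlinarith
    have h11 : 4 * K * B ≤ 4 * K * B * Y ^ 2 := by nlinarith [mul_nonneg hK0 hB0]
    have h12 : (1 / 100 : ℝ) ≤ 1 / 100 * Y ^ 2 := by nlinarith
    rw [mul_comm Y φ]
    linarith
  filter_upwards [hlarge, hJr, hy1, hgrow, eventually_ge_atTop 1, eventually_ge_atTop (1 / (4 * Real.pi * η))]
    with Y a1 a2 a3 a4 a5 a6
  by_contra hcon
  push Not at hcon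
  have n1 := JJ_upper2 hL h2' (t0 := t0) (ε := 1) hlam hlam1 hη hσ0.le a5 (by
    rw [div_le_iff₀ hpi] at a6
    linarith) a2 hcon
  rw [← hs1, ← hB] at n1
  rw [← hs1] at hK
  rw [← hK] at n1
  have n3 : 1 / 2 * Real.exp (Y * φ) - 1 / 100 ≤ ‖JJ d L s1 (η * Y) Y‖ := by
    have := norm_sub_norm_le (SZ Z m η s1 Y) (-(JJ d L s1 (η * Y) Y))
    rw [norm_neg, sub_neg_eq_add, add_comm] at this
    linarith
  linarith

end

end Pool.Agent.H424.BX
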