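import Pool.Agent.TH270.MS.Dir
import Pool.Agent.TH270.MS.PW

/-!
# Mean square bounds for the partial sums of a logarithm
-/

set_option autoImplicit false

open MeasureTheory Filter Topology Set Complex
open scoped ENNReal
open Pool.Agent.TH942.LS (Dat)
open Pool.Agent.TH942.SL
open Pool.Agent.TH942.RZ (LD one_add_log_le)
open Pool.Agent.TH270.MS

namespace Pool.Agent.H424.BX

variable {lam c : ℕ → ℝ} {δ σ : ℝ} {Ψ G : ℂ → ℂ} {C A A' : ℝ} {κ : ℕ}

/-- tilted coefficients -/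
noncomputable def tc (lam c : ℕ → ℝ) (θ : ℝ) (n : ℕ) : ℝ := c n * Real.exp (-(θ * lam n))

theorem tdat (D : Dat lam c δ σ) {θ : ℝ} (hθ : 0 ≤ θ) : Dat lam (tc lam c θ) δ σ where
  δ0 := D.δ0
  σ0 := D.σ0
  lam_ge := D.lam_ge
  sum := by
    refine Summable.of_nonneg_of_le (fun n => by positivity) (fun n => ?_) D.sum
    unfold tc
    rw [abs_mul, abs_of_pos (Real.exp_pos _)]
    have h1 : Real.exp (-(θ * lam n)) ≤ 1 := Real.exp_le_one_iff.2 (by
      have := D.lam_ge n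
      have := D.δ0
      have : 0 ≤ θ * lam n := mul_nonneg hθ (by linarith)
      linarith)
    have h2 := abs_nonneg (c n)
    have h3 := Real.exp_pos (-(σ * lam n))
    calc |c n| * Real.exp (-(θ * lam n)) * Real.exp (-(σ * lam n))
        ≤ |c n| * 1 * Real.exp (-(σ * lam n)) := by gcongr
      _ = _ := by ring

theorem tDD (θ : ℝ) (s : ℂ) : DD lam (tc lam c θ) s = DD lam c (s + θ) := by
  unfold DD tc
  refine tsum_congr fun n => ?_
  rw [show -((s + θ) * (lam n : ℂ)) = -(θ * lam n) + -(s * lam n) by ring, Complex.exp_add]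
  push_cast
  ring

/-- **The mean square bound.** -/
theorem l2 (D : Dat lam c δ σ) {θ : ℝ} (hθ : 0 ≤ θ)
    (hΨ : ∀ s : ℂ, 0 < s.re → DifferentiableAt ℂ Ψ s) (hne : ∀ s : ℂ, θ < s.re → Ψ s ≠ 0)
    (hG : ∀ s : ℂ, 0 < s.re → DifferentiableAt ℂ G s)
    (hexp : ∀ s : ℂ, σ < s.re → exp (G s - DD lam c s) = Ψ s)
    (hgrow : ∀ s : ℂ, 0 < s.re → ‖Ψ s‖ ≤ C * (1 + ‖s‖) ^ κ * (1 + 1 / s.re) ^ κ)
    (hGf : ∀ s : ℂ, 1 ≤ s.re → ‖G s‖ ≤ A')
    (hGb : ∀ s : ℂ, 0 < s.re → ‖G s‖ ≤ A * (1 + Real.log (1 + ‖s‖ / s.re)))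
    {x : ℝ} (hx : θ < x) :
    Integrable (fun u : ℝ => Sh lam c u ^ 2 * Real.exp (-(2 * x * u))) := by
  have hσ := D.σ0
  set δ₀ : ℝ := min (x - θ) 1 with hδ₀
  have hd0 : 0 < δ₀ := lt_min (by linarith) one_pos
  have hd1 : δ₀ ≤ 1 := min_le_right _ _
  have hdx : δ₀ ≤ x - θ := min_le_left _ _
  -- the logarithm
  have hre : ∀ s : ℂ, (s + (θ : ℂ)).re = s.re + θ := fun s => by simp
  obtain ⟨L, A₀, hL, hL1, hL2, hL3⟩ := Pool.Agent.TH270.RS.exists_LD (κ := κ) (C := |C| * (1 + θ) ^ κ)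
    (Ψ := fun s => Ψ (s + θ)) (G := fun s => G (s + θ)) (A' := A') (tdat D hθ)
    (fun s hs => by
      have h1 : DifferentiableAt ℂ Ψ (s + θ) := hΨ _ (by rw [hre]; linarith)
      exact DifferentiableAt.comp (f := fun s : ℂ => s + θ) s h1 (by fun_prop))
    (fun s hs => hne _ (by rw [hre]; linarith))
    (fun s hs => by
      have h1 : DifferentiableAt ℂ G (s + θ) := hG _ (by rw [hre]; linarith)
      exact DifferentiableAt.comp (f := fun s : ℂ => s + θ) s h1 (by fun_prop))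
    (fun s hs => by
      rw [tDD]
      exact hexp _ (by rw [hre]; linarith))
    (fun s hs => by
      have h1 := hgrow (s + θ) (by rw [hre]; linarith)
      refine h1.trans ?_
      rw [hre]
      have h2 : 1 + ‖s + (θ : ℂ)‖ ≤ (1 + θ) * (1 + ‖s‖) := by
        have h3 := norm_add_le s (θ : ℂ)
        rw [Complex.norm_real, Real.norm_of_nonneg hθ] at h3
        have := norm_nonneg s
        nlinarith
      have h4 : 1 + 1 / (s.re + θ) ≤ 1 + 1 / s.re := by
        have : 1 / (s.re + θ) ≤ 1 / s.re := one_div_le_one_div_of_le hs (by linarith)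
        linarith
      have h5 : 0 < s.re + θ := by linarith
      calc C * (1 + ‖s + (θ : ℂ)‖) ^ κ * (1 + 1 / (s.re + θ)) ^ κ
          ≤ |C| * ((1 + θ) * (1 + ‖s‖)) ^ κ * (1 + 1 / s.re) ^ κ := by
            gcongr
            exact le_abs_self C
        _ = _ := by rw [mul_pow]; ring)
    (fun s hs => hGf _ (by rw [hre]; linarith))
  obtain ⟨B, hB0, hB⟩ := hL.pow (x₀ := δ₀) (ε := 1 / 4) hd0 (by norm_num)
  -- the transform
  set H : ℂ → ℂ := fun s => (G (s + θ) - L s) / (s + θ) with hH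
  have hs0 : ∀ s : ℂ, 0 < s.re → s + (θ : ℂ) ≠ 0 := by
    intro s hs h
    have := congrArg Complex.re h
    rw [hre, Complex.zero_re] at this
    linarith
  have hHd : ∀ s : ℂ, 0 < s.re → DifferentiableAt ℂ H s := by
    intro s hs
    have h1 : DifferentiableAt ℂ G (s + θ) := hG _ (by rw [hre]; linarith)
    have h2 : DifferentiableAt ℂ (fun s : ℂ => G (s + θ)) s :=
      DifferentiableAt.comp (f := fun s : ℂ => s + θ) s h1 (by fun_prop)
    exact (h2.sub (hL.d s hs)).div (by fun_prop) (hs0 s hs)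
  -- the bound
  obtain ⟨K, hK0, hK⟩ : ∃ K : ℝ, 0 ≤ K ∧ ∀ s : ℂ, δ₀ ≤ s.re → s.re ≤ σ + 1 →
      ‖H s‖ ≤ K * (1 + |s.im|) ^ (-(3 / 4 : ℝ)) := by
    set q : ℝ := (σ + 1 + θ + 1) / δ₀ with hq
    have hq0 : 0 < q := by rw [hq]; positivity
    refine ⟨(|A| * (5 * (1 + q) ^ (1 / 4 : ℝ)) + B) * (1 + 1 / δ₀), by positivity, fun s hs1 hs2 => ?_⟩
    have hsp : 0 < s.re := by linarith
    have ht := abs_nonneg s.im
    have h1 : 1 + ‖s + (θ : ℂ)‖ / (s + (θ : ℂ)).re ≤ (1 + q) * (1 + |s.im|) := by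
      rw [hre]
      have e1 : ‖s + (θ : ℂ)‖ ≤ (σ + 1 + θ) + |s.im| := by
        have := Complex.norm_le_abs_re_add_abs_im (s + (θ : ℂ))
        rw [hre, abs_of_pos (by linarith)] at this
        have e2 : (s + (θ : ℂ)).im = s.im := by simp
        rw [e2] at this
        linarith
      have e3 : ‖s + (θ : ℂ)‖ / (s.re + θ) ≤ ((σ + 1 + θ) + |s.im|) / δ₀ := by
        refine div_le_div₀ (by positivity) e1 hd0 (by linarith)
      have e4 : ((σ + 1 + θ) + |s.im|) / δ₀ ≤ q * (1 + |s.im|) := by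
        rw [hq, div_mul_eq_mul_div, div_le_div_iff_of_pos_right hd0]
        nlinarith [mul_nonneg (by linarith : 0 ≤ σ + 1 + θ) ht]
      nlinarith
    have h2 : ‖G (s + θ)‖ ≤ |A| * (5 * (1 + q) ^ (1 / 4 : ℝ)) * (1 + |s.im|) ^ (1 / 4 : ℝ) := by
      have e1 := hGb (s + θ) (by rw [hre]; linarith)
      have e0 : 0 ≤ ‖s + (θ : ℂ)‖ / (s + (θ : ℂ)).re := by
        rw [hre]
        have : 0 < s.re + θ := by linarith
        positivity
      have e2 := one_add_log_le (ε := 1 / 4) (x := ‖s + (θ : ℂ)‖ / (s + (θ : ℂ)).re) (by norm_num) e0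
      have e3 : (1 + ‖s + (θ : ℂ)‖ / (s + (θ : ℂ)).re) ^ (1 / 4 : ℝ) ≤
          ((1 + q) * (1 + |s.im|)) ^ (1 / 4 : ℝ) :=
        Real.rpow_le_rpow (by linarith) h1 (by norm_num)
      rw [Real.mul_rpow (by linarith) (by linarith)] at e3
      have e4 : 0 ≤ 1 + Real.log (1 + ‖s + (θ : ℂ)‖ / (s + (θ : ℂ)).re) := by
        have := Real.log_nonneg (show 1 ≤ 1 + ‖s + (θ : ℂ)‖ / (s + (θ : ℂ)).re by linarith)
        linarith
      calc ‖G (s + θ)‖ ≤ A * (1 + Real.log (1 + ‖s + (θ : ℂ)‖ / (s + (θ : ℂ)).re)) := e1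
        _ ≤ |A| * (1 + Real.log (1 + ‖s + (θ : ℂ)‖ / (s + (θ : ℂ)).re)) := by
            gcongr
            exact le_abs_self A
        _ ≤ |A| * ((1 + 1 / (1 / 4)) * (((1 + q) ^ (1 / 4 : ℝ)) * (1 + |s.im|) ^ (1 / 4 : ℝ))) := by
            gcongr
            exact e2.trans (mul_le_mul_of_nonneg_left e3 (by norm_num))
        _ = _ := by ring
    have h3 := hB s hs1
    have h4 : (1 + |s.im|) / (1 + 1 / δ₀) ≤ ‖s + (θ : ℂ)‖ := by
      rw [div_le_iff₀ (by positivity)]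
      have e1 : |s.im| ≤ ‖s + (θ : ℂ)‖ := by
        have := Complex.abs_im_le_norm (s + (θ : ℂ))
        simpa using this
      have e2 : δ₀ ≤ ‖s + (θ : ℂ)‖ := by
        have := Complex.re_le_norm (s + (θ : ℂ))
        rw [hre] at this
        linarith
      have e3 : 1 ≤ ‖s + (θ : ℂ)‖ * (1 / δ₀) := by
        rw [mul_one_div, le_div_iff₀ hd0]
        linarith
      linarith
    have h5 : 0 < (1 + |s.im|) / (1 + 1 / δ₀) := by positivity
    rw [hH]
    simp only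
    rw [norm_div]
    have h6 : ‖G (s + θ) - L s‖ ≤ (|A| * (5 * (1 + q) ^ (1 / 4 : ℝ)) + B) * (1 + |s.im|) ^ (1 / 4 : ℝ) := by
      refine (norm_sub_le _ _).trans ?_
      rw [add_mul]
      exact add_le_add h2 h3
    refine (div_le_div₀ (by positivity) h6 h5 h4).trans (le_of_eq ?_)
    have h7 : (1 + |s.im|) ^ (-(3 / 4 : ℝ)) = (1 + |s.im|) ^ (1 / 4 : ℝ) / (1 + |s.im|) := by
      rw [show (-(3 / 4) : ℝ) = 1 / 4 - 1 by norm_num, Real.rpow_sub_one (by positivity)]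
    rw [h7]
    have h8 : (1 + |s.im|) ≠ 0 := by positivity
    have h9 : (1 + 1 / δ₀) ≠ 0 := by positivity
    rw [div_div_eq_mul_div]
    ring
  -- the function
  set k : ℝ → ℂ := fun u => (Sh lam c u : ℂ) * ((Real.exp (-(θ * u)) : ℝ) : ℂ) with hk
  have hkeq : ∀ (s : ℂ) (u : ℝ), k u * exp (-(s * u)) = (Sh lam c u : ℂ) * exp (-((s + θ) * u)) := by
    intro s u
    simp only [hk]
    rw [Complex.ofReal_exp, mul_assoc, ← Complex.exp_add]
    congr 2
    push_cast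
    ring
  have hkm : Measurable (Sh lam c) := sh_meas D
  set S₀ : ℝ := ∑' n, |c n| * Real.exp (-(σ * lam n)) with hS₀
  have hS0 : 0 ≤ S₀ := tsum_nonneg fun n => by positivity
  have hki : Integrable fun u : ℝ => k u * exp (-(((σ + 1 : ℝ) : ℂ) * u)) := by
    have h1 : Integrable ((Ici (0 : ℝ)).indicator fun T : ℝ => Real.exp (-(1 * T))) :=
      integrable_step_real one_pos 0
    refine (h1.const_mul S₀).mono' ?_ (Eventually.of_forall fun u => ?_)
    · simp only [hkeq]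
      refine AEStronglyMeasurable.mul ?_ (Continuous.aestronglyMeasurable (by fun_prop))
      exact (Complex.measurable_ofReal.comp hkm).aestronglyMeasurable
    · rw [hkeq, norm_mul, Complex.norm_real, norm_exp_neg, hre, Real.norm_eq_abs]
      rcases lt_or_ge u 0 with hu | hu
      · rw [sh_zero D (by linarith [D.δ0]), abs_zero, zero_mul]
        exact mul_nonneg hS0 (indicator_nonneg (fun _ _ => (Real.exp_pos _).le) _)
      · rw [indicator_of_mem (show u ∈ Ici (0 : ℝ) from hu)]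
        have e1 := sh_le D u
        rw [← hS₀] at e1
        have e2 : Real.exp (-((((σ + 1 : ℝ) : ℂ).re + θ) * u)) ≤ Real.exp (-(σ * u)) * Real.exp (-(1 * u)) := by
          rw [← Real.exp_add, Complex.ofReal_re]
          refine Real.exp_le_exp.2 ?_
          nlinarith [mul_nonneg hθ hu]
        calc |Sh lam c u| * Real.exp (-((((σ + 1 : ℝ) : ℂ).re + θ) * u))
            ≤ (Real.exp (σ * u) * S₀) * (Real.exp (-(σ * u)) * Real.exp (-(1 * u))) :=
              mul_le_mul e1 e2 (Real.exp_pos _).le (by positivity)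
          _ = S₀ * Real.exp (-(1 * u)) := by
              have : Real.exp (σ * u) * Real.exp (-(σ * u)) = 1 := by
                rw [← Real.exp_add, add_neg_cancel, Real.exp_zero]
              linear_combination (S₀ * Real.exp (-(1 * u))) * this
  have hHl : ∀ s : ℂ, σ < s.re → H s = ∫ u : ℝ, k u * exp (-(s * u)) := by
    intro s hs
    simp only [hkeq]
    rw [sh_lap D (s := s + θ) (by rw [hre]; linarith)]
    simp only [hH]
    rw [hL3 s hs, tDD]
    congr 1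
    ring
  have hre1 : ∀ t : ℝ, ((δ₀ : ℂ) + t * I).re = δ₀ := fun t => by simp
  have him1 : ∀ t : ℝ, ((δ₀ : ℂ) + t * I).im = t := fun t => by simp
  have hlin : ∫⁻ t : ℝ, ‖H (δ₀ + t * I)‖ₑ ^ 2 < ⊤ := by
    have h1 : ∀ t : ℝ, ‖H (δ₀ + t * I)‖ₑ ^ 2 ≤ ENNReal.ofReal (K ^ 2 * (1 + |t|) ^ (-(3 / 2 : ℝ))) := by
      intro t
      have h2 := hK ((δ₀ : ℂ) + t * I) (by rw [hre1]) (by rw [hre1]; linarith)
      rw [him1] at h2
      rw [← ofReal_norm, ← ENNReal.ofReal_pow (norm_nonneg _)]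
      refine ENNReal.ofReal_le_ofReal ?_
      refine (pow_le_pow_left₀ (norm_nonneg _) h2 2).trans (le_of_eq ?_)
      rw [mul_pow, ← Real.rpow_natCast ((1 + |t|) ^ (-(3 / 4 : ℝ))) 2, ← Real.rpow_mul (by positivity)]
      norm_num
    refine (lintegral_mono h1).trans_lt ?_
    have h3 := (PW.integrable_decay.const_mul (K ^ 2)).lintegral_lt_top
    exact h3
  have key := PW.strip (k := k) (H := H) (a := σ) (δ := δ₀) hd0 (by linarith) hki hHl hHd (B := K)
    (fun s hs1 hs2 => (hK s hs1 hs2).trans (by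
      have : (1 + |s.im|) ^ (-(3 / 4 : ℝ)) ≤ 1 :=
        Real.rpow_le_one_of_one_le_of_nonpos (by linarith [abs_nonneg s.im]) (by norm_num)
      calc K * (1 + |s.im|) ^ (-(3 / 4 : ℝ)) ≤ K * 1 := by gcongr
        _ = K := mul_one _)) hlin
  have hfin : ∫⁻ u : ℝ, ‖k u * exp (-(δ₀ * u))‖ₑ ^ 2 < ⊤ := key.trans_lt hlin
  have hmeas : Measurable fun u : ℝ => Sh lam c u ^ 2 * Real.exp (-(2 * x * u)) :=
    (hkm.pow_const 2).mul (by fun_prop)
  refine ⟨hmeas.aestronglyMeasurable, ?_⟩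
  rw [hasFiniteIntegral_iff_enorm]
  refine lt_of_le_of_lt (lintegral_mono fun u => ?_) hfin
  rw [← ofReal_norm, ← ofReal_norm, ← ENNReal.ofReal_pow (norm_nonneg _)]
  refine ENNReal.ofReal_le_ofReal ?_
  have hk2 : ‖k u * exp (-(δ₀ * u))‖ = |Sh lam c u| * Real.exp (-((((δ₀ : ℝ) : ℂ).re + θ) * u)) := by
    rw [hkeq, norm_mul, Complex.norm_real, norm_exp_neg, hre, Real.norm_eq_abs]
  have hk3 : ‖Sh lam c u ^ 2 * Real.exp (-(2 * x * u))‖ = |Sh lam c u| ^ 2 * Real.exp (-(2 * x * u)) := by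
    rw [Real.norm_eq_abs, abs_mul, abs_of_pos (Real.exp_pos _), abs_pow]
  rw [hk2, hk3, mul_pow, ← Real.exp_nat_mul]
  rcases lt_or_ge u 0 with hu | hu
  · rw [sh_zero D (by linarith [D.δ0])]
    simp
  · refine mul_le_mul_of_nonneg_left (Real.exp_le_exp.2 ?_) (by positivity)
    rw [Complex.ofReal_re]
    push_cast
    nlinarith [mul_nonneg (by linarith : 0 ≤ x - θ - δ₀) hu]

end Pool.Agent.H424.BX
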